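import Mathlib

/-!
# Borel determinacy, part 1: trees by levels, strategies, coverings

A game tree is given by its levels `P n` (positions of length `n`) and surjective restriction
maps `res n : P (n+1) → P n`.  The player `e : Bool` moves at the levels `n` with
`Nat.bodd n = e` (so `false` is the first player).  A strategy is a section of `res` at every
level (only the levels of the player matter).  A covering (Martin) consists of level maps and of
a local transformation of strategies with the lifting property.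
-/

namespace Pool.Agent.BorelDet

universe u

/-- A pruned tree, given by its levels and the surjective restriction maps. -/
structure GTree : Type (u + 1) where
  /-- positions of length `n` -/
  P : ℕ → Type u
  /-- restriction of a position of length `n + 1` to length `n` -/
  res : ∀ n, P (n + 1) → P n
  /-- the tree is pruned -/
  surj : ∀ n, Function.Surjective (res n)

namespace GTree

/-- Infinite branches of a tree. -/
def Body (T : GTree.{u}) : Type u :=
  {x : ∀ n, T.P n // ∀ n, T.res n (x (n + 1)) = x n}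

/-- A strategy (for both players): a section of the restriction maps. -/
def Strat (T : GTree.{u}) : Type u :=
  {s : ∀ n, T.P n → T.P (n + 1) // ∀ n p, T.res n (s n p) = p}

/-- Some strategy. -/
noncomputable def someStrat (T : GTree.{u}) : T.Strat :=
  ⟨fun n p => Classical.choose (T.surj n p), fun n p => Classical.choose_spec (T.surj n p)⟩

noncomputable instance (T : GTree.{u}) : Inhabited T.Strat := ⟨T.someStrat⟩

end GTree

open GTree

variable {T T' T'' : GTree.{u}}

/-- The branch `x` is played by player `e` according to `σ`. -/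
def Cons (e : Bool) (σ : T.Strat) (x : T.Body) : Prop :=
  ∀ n, Nat.bodd n = e → x.1 (n + 1) = σ.1 n (x.1 n)

/-- A set of branches which is determined at some level. -/
def LevelDet (X : Set T.Body) : Prop :=
  ∃ n, ∀ x y : T.Body, x.1 n = y.1 n → x ∈ X → y ∈ X

/-- Open sets of branches. -/
def IsOpenB (X : Set T.Body) : Prop :=
  ∀ x ∈ X, ∃ n, ∀ y : T.Body, y.1 n = x.1 n → y ∈ X

theorem LevelDet.compl {X : Set T.Body} (h : LevelDet X) : LevelDet Xᶜ := by
  obtain ⟨n, hn⟩ := h
  exact ⟨n, fun x y hxy hx hy => hx (hn y x hxy.symm hy)⟩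

theorem LevelDet.isOpenB {X : Set T.Body} (h : LevelDet X) : IsOpenB X := by
  obtain ⟨n, hn⟩ := h
  exact fun x hx => ⟨n, fun y hy => hn x y hy.symm hx⟩

theorem IsOpenB.iUnion {ι : Sort*} {X : ι → Set T.Body} (h : ∀ i, IsOpenB (X i)) :
    IsOpenB (⋃ i, X i) := by
  intro x hx
  obtain ⟨i, hi⟩ := Set.mem_iUnion.1 hx
  obtain ⟨n, hn⟩ := h i x hi
  exact ⟨n, fun y hy => Set.mem_iUnion.2 ⟨i, hn y hy⟩⟩

theorem LevelDet.mono_level {X : Set T.Body} {n : ℕ}
    (hn : ∀ x y : T.Body, x.1 n = y.1 n → x ∈ X → y ∈ X) {m : ℕ} (hm : n ≤ m) :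
    ∀ x y : T.Body, x.1 m = y.1 m → x ∈ X → y ∈ X := by
  induction m, hm using Nat.le_induction with
  | base => exact hn
  | succ m _ ih =>
    intro x y hxy hx
    apply ih x y _ hx
    rw [← x.2 m, ← y.2 m, hxy]

/-- A covering of `T` by `T'` (Martin): level maps and a local transformation of strategies with
the lifting property. -/
structure Cov (T' T : GTree.{u}) where
  /-- the projection of positions -/
  π : ∀ n, T'.P n → T.P n
  comm : ∀ n p, T.res n (π (n + 1) p) = π n (T'.res n p)
  /-- the transformation of strategies of player `e` -/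
  φ : Bool → T'.Strat → T.Strat
  loc : ∀ (e : Bool) (σ σ' : T'.Strat) (n : ℕ), Nat.bodd n = e →
    (∀ m, m ≤ n → Nat.bodd m = e → σ.1 m = σ'.1 m) → (φ e σ).1 n = (φ e σ').1 n
  lift : ∀ (e : Bool) (σ : T'.Strat) (x : T.Body), Cons e (φ e σ) x →
    ∃ x' : T'.Body, Cons e σ x' ∧ ∀ n, π n (x'.1 n) = x.1 n

namespace Cov

/-- The induced map on branches. -/
def map (c : Cov T' T) (x : T'.Body) : T.Body :=
  ⟨fun n => c.π n (x.1 n), fun n => by rw [c.comm, x.2]⟩

@[simp] theorem map_val (c : Cov T' T) (x : T'.Body) (n : ℕ) :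
    (c.map x).1 n = c.π n (x.1 n) := rfl

theorem map_eq_iff (c : Cov T' T) (x' : T'.Body) (x : T.Body) :
    c.map x' = x ↔ ∀ n, c.π n (x'.1 n) = x.1 n := by
  constructor
  · rintro rfl n; rfl
  · intro h; exact Subtype.ext (funext h)

/-- The covering is the identity up to level `N` (up to a bijection of the levels). -/
structure Upto (c : Cov T' T) (N : ℕ) : Prop where
  bij : ∀ n, n ≤ N → Function.Bijective (c.π n)
  compat : ∀ (e : Bool) (σ : T'.Strat) (n : ℕ), n < N → Nat.bodd n = e →
    ∀ p, (c.φ e σ).1 n (c.π n p) = c.π (n + 1) (σ.1 n p)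

theorem Upto.mono {c : Cov T' T} {M N : ℕ} (h : c.Upto N) (hMN : M ≤ N) : c.Upto M :=
  ⟨fun n hn => h.bij n (hn.trans hMN), fun e σ n hn => h.compat e σ n (lt_of_lt_of_le hn hMN)⟩

/-- The identity covering. -/
def refl (T : GTree.{u}) : Cov T T where
  π := fun _ p => p
  comm := fun _ _ => rfl
  φ := fun _ σ => σ
  loc := fun _ _ _ n hn h => h n le_rfl hn
  lift := fun _ _ x hx => ⟨x, hx, fun _ => rfl⟩

theorem refl_upto (T : GTree.{u}) (N : ℕ) : (refl T).Upto N :=
  ⟨fun _ _ => Function.bijective_id, fun _ _ _ _ _ _ => rfl⟩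

/-- Composition of coverings. -/
def comp (d : Cov T'' T') (c : Cov T' T) : Cov T'' T where
  π := fun n p => c.π n (d.π n p)
  comm := fun n p => by rw [c.comm, d.comm]
  φ := fun e σ => c.φ e (d.φ e σ)
  loc := fun e σ σ' n hn h => c.loc e _ _ n hn
    (fun m hm he => d.loc e σ σ' m he (fun k hk hk' => h k (hk.trans hm) hk'))
  lift := fun e σ x hx => by
    obtain ⟨y, hy, hyx⟩ := c.lift e _ x hx
    obtain ⟨z, hz, hzy⟩ := d.lift e σ y hy
    exact ⟨z, hz, fun n => by rw [hzy, hyx]⟩

theorem Upto.comp {d : Cov T'' T'} {c : Cov T' T} {N : ℕ} (hd : d.Upto N) (hc : c.Upto N) :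
    (d.comp c).Upto N where
  bij := fun n hn => (hc.bij n hn).comp (hd.bij n hn)
  compat := fun e σ n hn he p => by
    show (c.φ e (d.φ e σ)).1 n (c.π n (d.π n p)) = c.π (n + 1) (d.π (n + 1) (σ.1 n p))
    rw [hc.compat e _ n hn he, hd.compat e σ n hn he]

@[simp] theorem comp_map (d : Cov T'' T') (c : Cov T' T) (x : T''.Body) :
    (d.comp c).map x = c.map (d.map x) := rfl

end Cov

/-- Preimages of sets determined at a level under level maps. -/
theorem LevelDet.preimage {L : GTree.{u}} {X : Set T.Body} (h : LevelDet X)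
    (f : L.Body → T.Body) (r : ∀ n, L.P n → T.P n) (hf : ∀ x n, (f x).1 n = r n (x.1 n)) :
    LevelDet (f ⁻¹' X) := by
  obtain ⟨n, hn⟩ := h
  refine ⟨n, fun x y hxy hx => hn (f x) (f y) ?_ hx⟩
  rw [hf, hf, hxy]

theorem IsOpenB.preimage {L : GTree.{u}} {X : Set T.Body} (h : IsOpenB X)
    (f : L.Body → T.Body) (r : ∀ n, L.P n → T.P n) (hf : ∀ x n, (f x).1 n = r n (x.1 n)) :
    IsOpenB (f ⁻¹' X) := by
  intro x hx
  obtain ⟨n, hn⟩ := h (f x) hx
  exact ⟨n, fun y hy => hn (f y) (by rw [hf, hf, hy])⟩

end Pool.Agent.BorelDet
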