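import Pool.Agent.Lib.BorelDet.Force

/-!
# Borel determinacy, part 4: the unravelling tree of a closed set

`D` is the set of dead positions; the closed set is the set of branches without a dead position.
The first player (even levels) adds to his first move a quasi strategy `S` for himself; the second
player adds to his first move either (`inl u`) a dead position `u` in `S` of even level which
will be passed, or (`inr S'`) a quasi strategy `S'` for himself inside `S` without dead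
positions, in which the play will stay.
-/

namespace Pool.Agent.BorelDet

universe u

open GTree

variable {T : GTree.{u}}

/-- `S` is a quasi strategy of the first player (even levels) above the position `q` of
length one. -/
structure QE (q : T.P 1) (S : Set T.Pos) : Prop where
  mem : (⟨1, q⟩ : T.Pos) ∈ S
  ext : ∀ a ∈ S, T.Ext ⟨1, q⟩ a
  down : ∀ (n : ℕ) (r : T.P (n + 1)), 1 ≤ n → (⟨n + 1, r⟩ : T.Pos) ∈ S →
    (⟨n, T.res n r⟩ : T.Pos) ∈ S
  /-- the moves of the second player are not restricted -/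
  theirs : ∀ (n : ℕ) (r : T.P (n + 1)), Nat.bodd n = true → (⟨n, T.res n r⟩ : T.Pos) ∈ S →
    (⟨n + 1, r⟩ : T.Pos) ∈ S
  /-- the first player has a move in `S` -/
  mine : ∀ (n : ℕ) (p : T.P n), Nat.bodd n = false → (⟨n, p⟩ : T.Pos) ∈ S →
    ∃ r : T.P (n + 1), T.res n r = p ∧ (⟨n + 1, r⟩ : T.Pos) ∈ S

/-- `S'` is a quasi strategy of the second player (odd levels) inside `S`, without dead
positions. -/
structure QO (D S S' : Set T.Pos) : Prop where
  sub : S' ⊆ S
  dead : ∀ a ∈ S', a ∉ D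
  down : ∀ (n : ℕ) (r : T.P (n + 1)), 2 ≤ n → (⟨n + 1, r⟩ : T.Pos) ∈ S' →
    (⟨n, T.res n r⟩ : T.Pos) ∈ S'
  /-- the moves of the first player inside `S` are not restricted -/
  theirs : ∀ (n : ℕ) (r : T.P (n + 1)), Nat.bodd n = false → (⟨n, T.res n r⟩ : T.Pos) ∈ S' →
    (⟨n + 1, r⟩ : T.Pos) ∈ S → (⟨n + 1, r⟩ : T.Pos) ∈ S'
  /-- the second player has a move in `S'` -/
  mine : ∀ (n : ℕ) (p : T.P n), Nat.bodd n = true → (⟨n, p⟩ : T.Pos) ∈ S' →
    ∃ r : T.P (n + 1), T.res n r = p ∧ (⟨n + 1, r⟩ : T.Pos) ∈ S'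

/-- The options of the second player are valid at the position `a`. -/
def OptOK (D S : Set T.Pos) (a : T.Pos) : T.Pos ⊕ Set T.Pos → Prop
  | .inl u => u ∈ S ∧ u ∈ D ∧ Nat.bodd u.1 = false ∧ 2 ≤ u.1 ∧ (T.Ext a u ∨ T.Ext u a)
  | .inr S' => QO D S S' ∧ a ∈ S'

/-- Valid positions of length `n + 2`. -/
def Valid (D : Set T.Pos) (n : ℕ) (x : T.P (n + 2) × Set T.Pos × (T.Pos ⊕ Set T.Pos)) : Prop :=
  (∃ q : T.P 1, T.Ext ⟨1, q⟩ ⟨n + 2, x.1⟩ ∧ QE q x.2.1) ∧ OptOK D x.2.1 ⟨n + 2, x.1⟩ x.2.2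

theorem Valid.res {D : Set T.Pos} {n : ℕ}
    {x : T.P (n + 1 + 2) × Set T.Pos × (T.Pos ⊕ Set T.Pos)} (h : Valid D (n + 1) x) :
    Valid D n (T.res (n + 2) x.1, x.2) := by
  obtain ⟨⟨q, hq, hS⟩, ho⟩ := h
  refine ⟨⟨q, hq.of_succ (by simp), hS⟩, ?_⟩
  obtain ⟨r, S, o⟩ := x
  cases o with
  | inl v =>
    obtain ⟨h1, h2, h3, h4, h5⟩ := ho
    refine ⟨h1, h2, h3, h4, ?_⟩
    rcases h5 with h5 | h5
    · exact Or.inl ((Ext.single r).trans h5)
    · by_cases hl : v.1 ≤ n + 2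
      · exact Or.inr (h5.of_succ hl)
      · have hv : v = ⟨n + 1 + 2, r⟩ := h5.eq_of_level (by simp only; omega)
        rw [hv]
        exact Or.inl (Ext.single r)
  | inr S' =>
    obtain ⟨h1, h2⟩ := ho
    exact ⟨h1, h1.down (n + 2) r (by omega) h2⟩

theorem Valid.res_one {D : Set T.Pos} {x : T.P (0 + 2) × Set T.Pos × (T.Pos ⊕ Set T.Pos)}
    (h : Valid D 0 x) : QE (T.res 1 x.1) x.2.1 := by
  obtain ⟨⟨q, hq, hS⟩, _⟩ := h
  have h' := hq.of_succ (n := 1) (by simp)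
  have : q = T.res 1 x.1 := by
    have := h'.eq_of_level le_rfl
    exact eq_of_heq (Sigma.mk.inj this).2
  rw [← this]; exact hS

/-- The levels of the unravelling tree. -/
def CLevel (T : GTree.{u}) (D : Set T.Pos) : ℕ → Type u
  | 0 => T.P 0
  | 1 => {x : T.P 1 × Set T.Pos // QE x.1 x.2}
  | n + 2 => {x : T.P (n + 2) × Set T.Pos × (T.Pos ⊕ Set T.Pos) // Valid D n x}

/-- The restriction maps of the unravelling tree. -/
def cres (T : GTree.{u}) (D : Set T.Pos) : ∀ n, CLevel T D (n + 1) → CLevel T D n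
  | 0 => fun x => T.res 0 x.1.1
  | 1 => fun x => ⟨(T.res 1 x.1.1, x.1.2.1), x.2.res_one⟩
  | n + 2 => fun x => ⟨(T.res (n + 2) x.1.1, x.1.2), x.2.res⟩

/-- The projection of the unravelling tree. -/
def cproj (T : GTree.{u}) (D : Set T.Pos) : ∀ n, CLevel T D n → T.P n
  | 0 => fun x => x
  | 1 => fun x => x.1.1
  | _ + 2 => fun x => x.1.1

theorem QE_ext (q : T.P 1) : QE q {a | T.Ext ⟨1, q⟩ a} where
  mem := .refl _
  ext := fun _ h => h
  down := fun _ _ hn h => h.of_succ hn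
  theirs := fun _ r _ h => GTree.Ext.step r h
  mine := by
    intro n p _ h
    obtain ⟨r, hr⟩ := T.surj n p
    subst hr
    exact ⟨r, rfl, GTree.Ext.step r h⟩

theorem cres_surj (T : GTree.{u}) (D : Set T.Pos)
    (hD : ∀ (n : ℕ) (q : T.P (n + 1)), (⟨n, T.res n q⟩ : T.Pos) ∈ D → (⟨n + 1, q⟩ : T.Pos) ∈ D) :
    ∀ n, Function.Surjective (cres T D n)
  | 0 => by
    intro p
    obtain ⟨q, hq⟩ := T.surj 0 p
    exact ⟨⟨(q, {a | T.Ext ⟨1, q⟩ a}), QE_ext q⟩, hq⟩
  | 1 => by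
    rintro ⟨⟨q, S⟩, hQ⟩
    obtain ⟨r, hr⟩ := T.surj 1 q
    subst hr
    simp only at hQ
    have hrS : (⟨2, r⟩ : T.Pos) ∈ S := hQ.theirs 1 r rfl hQ.mem
    by_cases h : ∃ v ∈ S, T.Ext ⟨2, r⟩ v ∧ v ∈ D
    · obtain ⟨u, hu, hru, huD, hue⟩ : ∃ u ∈ S, T.Ext ⟨2, r⟩ u ∧ u ∈ D ∧ Nat.bodd u.1 = false := by
        obtain ⟨v, hv, hrv, hvD⟩ := h
        by_cases hve : Nat.bodd v.1 = false
        · exact ⟨v, hv, hrv, hvD, hve⟩
        · obtain ⟨n, p⟩ := v
          have hn : Nat.bodd n = true := by simpa using hve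
          obtain ⟨w, hw⟩ := T.surj n p
          subst hw
          exact ⟨⟨n + 1, w⟩, hQ.theirs n w hn hv, .step w hrv, hD n w hvD, by simp [hn]⟩
      refine ⟨⟨(r, S, .inl u), ⟨T.res 1 r, Ext.single r, hQ⟩, hu, huD, hue, hru.level_le,
        Or.inl hru⟩, rfl⟩
    · push Not at h
      refine ⟨⟨(r, S, .inr {a | a ∈ S ∧ T.Ext ⟨2, r⟩ a}), ⟨T.res 1 r, Ext.single r, hQ⟩, ?_,
        hrS, .refl _⟩, rfl⟩
      exact
        { sub := fun a ha => ha.1
          dead := fun a ha => h a ha.1 ha.2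
          down := fun n w hn hw => ⟨hQ.down n w (by omega) hw.1, hw.2.of_succ hn⟩
          theirs := fun n w _ hw hwS => ⟨hwS, .step w hw.2⟩
          mine := by
            intro n p hn hp
            obtain ⟨w, hw⟩ := T.surj n p
            subst hw
            exact ⟨w, rfl, hQ.theirs n w hn hp.1, .step w hp.2⟩ }
  | n + 2 => by
    rintro ⟨⟨p, S, o⟩, ⟨⟨q, hq, hQ⟩, ho⟩⟩
    simp only at hq hQ ho
    have key : ∀ r : T.P (n + 2 + 1), T.res (n + 2) r = p → OptOK D S ⟨n + 2 + 1, r⟩ o →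
        ∃ y, cres T D (n + 2) y = ⟨(p, S, o), ⟨⟨q, hq, hQ⟩, ho⟩⟩ := by
      intro r hr hor
      subst hr
      exact ⟨⟨(r, S, o), ⟨⟨q, .step r hq, hQ⟩, hor⟩⟩, rfl⟩
    cases o with
    | inl v =>
      obtain ⟨h1, h2, h3, h4, h5⟩ := ho
      rcases Nat.lt_or_ge (n + 2) v.1 with hlt | hge
      · have h5' : T.Ext ⟨n + 2, p⟩ v := by
          rcases h5 with h5 | h5
          · exact h5
          · have := h5.level_le; simp only at this; omega
        obtain ⟨r, hr⟩ := Ext.exists_ancestor v (n + 2 + 1) hlt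
        have hrp : T.res (n + 2) r = p := Ext.unique ((Ext.single r).trans hr) h5'
        exact key r hrp ⟨h1, h2, h3, h4, Or.inl hr⟩
      · have h5' : T.Ext v ⟨n + 2, p⟩ := by
          rcases h5 with h5 | h5
          · rw [h5.eq_of_level hge]; exact .refl _
          · exact h5
        obtain ⟨r, hr⟩ := T.surj (n + 2) p
        subst hr
        exact key r rfl ⟨h1, h2, h3, h4, Or.inr (.step r h5')⟩
    | inr S' =>
      obtain ⟨h1, h2⟩ := ho
      by_cases hn : Nat.bodd (n + 2) = true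
      · obtain ⟨r, hr, hr'⟩ := h1.mine (n + 2) p hn h2
        exact key r hr ⟨h1, hr'⟩
      · have hn' : Nat.bodd (n + 2) = false := by simpa using hn
        obtain ⟨r, hr, hr'⟩ := hQ.mine (n + 2) p hn' (h1.sub h2)
        subst hr
        exact key r rfl ⟨h1, h1.theirs (n + 2) r hn' h2 hr'⟩

/-- The unravelling tree. -/
def closedTree (T : GTree.{u}) (D : Set T.Pos)
    (hD : ∀ (n : ℕ) (q : T.P (n + 1)), (⟨n, T.res n q⟩ : T.Pos) ∈ D → (⟨n + 1, q⟩ : T.Pos) ∈ D) :
    GTree.{u} where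
  P := CLevel T D
  res := cres T D
  surj := cres_surj T D hD

theorem cproj_comm (T : GTree.{u}) (D : Set T.Pos) :
    ∀ (n : ℕ) (p : CLevel T D (n + 1)), T.res n (cproj T D (n + 1) p) = cproj T D n (cres T D n p)
  | 0, _ => rfl
  | 1, _ => rfl
  | _ + 2, _ => rfl

section

variable {D : Set T.Pos}
  {hD : ∀ (n : ℕ) (q : T.P (n + 1)), (⟨n, T.res n q⟩ : T.Pos) ∈ D → (⟨n + 1, q⟩ : T.Pos) ∈ D}

/-- The data of a branch of the unravelling tree are constant. -/
theorem cbody_data (x : (closedTree T D hD).Body) (n : ℕ) :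
    (x.1 (n + 2) : CLevel T D (n + 2)).1.2 = (x.1 2 : CLevel T D (0 + 2)).1.2 := by
  induction n with
  | zero => rfl
  | succ n ih =>
    rw [← ih]
    have := x.2 (n + 2)
    exact congrArg (fun y : CLevel T D (n + 2) => y.1.2) this

/-- Whether the projection of a branch has no dead position is determined at level two. -/
theorem closedTree_levelDet (x : (closedTree T D hD).Body) :
    (∀ n, (⟨n, cproj T D n (x.1 n)⟩ : T.Pos) ∉ D) ↔
      (x.1 2 : CLevel T D (0 + 2)).1.2.2.isRight = true := by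
  have hcomm : ∀ n, T.res n (cproj T D (n + 1) (x.1 (n + 1))) = cproj T D n (x.1 n) := by
    intro n
    exact (cproj_comm T D n (x.1 (n + 1))).trans (congrArg (cproj T D n) (x.2 n))
  have hup : ∀ n, (⟨n, cproj T D n (x.1 n)⟩ : T.Pos) ∈ D →
      (⟨n + 1, cproj T D (n + 1) (x.1 (n + 1))⟩ : T.Pos) ∈ D := by
    intro n hn
    apply hD
    rw [hcomm]; exact hn
  have hval : ∀ n, OptOK D (x.1 2 : CLevel T D (0 + 2)).1.2.1
      ⟨n + 2, cproj T D (n + 2) (x.1 (n + 2))⟩ (x.1 2 : CLevel T D (0 + 2)).1.2.2 := by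
    intro n
    have h := (x.1 (n + 2) : CLevel T D (n + 2)).2.2
    rw [cbody_data x n] at h
    exact h
  generalize hS : (x.1 2 : CLevel T D (0 + 2)).1.2.1 = S at hval
  generalize ho : (x.1 2 : CLevel T D (0 + 2)).1.2.2 = o at hval
  cases o with
  | inl v =>
    simp only [Sum.isRight_inl, Bool.false_eq_true, iff_false]
    intro h
    obtain ⟨h1, h2, h3, h4, h5⟩ := hval (v.1 - 2)
    have hv : v.1 - 2 + 2 = v.1 := Nat.sub_add_cancel h4
    have key : (⟨v.1 - 2 + 2, cproj T D (v.1 - 2 + 2) (x.1 (v.1 - 2 + 2))⟩ : T.Pos) = v := by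
      rcases h5 with h5 | h5
      · exact h5.eq_of_level (by simp only; omega)
      · exact (h5.eq_of_level (by simp only; omega)).symm
    apply h (v.1 - 2 + 2)
    rw [key]; exact h2
  | inr S' =>
    simp only [Sum.isRight_inr, iff_true]
    intro n hn
    have h2 : ∀ k, (⟨k + 2, cproj T D (k + 2) (x.1 (k + 2))⟩ : T.Pos) ∉ D :=
      fun k => (hval k).1.dead _ (hval k).2
    exact h2 n (hup (n + 1) (hup n hn))

/-- Build a branch of the unravelling tree from a branch of `T` and constant data. -/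
def cbody (x : T.Body) (S : Set T.Pos) (o : T.Pos ⊕ Set T.Pos)
    (hS : QE (x.1 1) S) (ho : ∀ n, OptOK D S ⟨n + 2, x.1 (n + 2)⟩ o) :
    (closedTree T D hD).Body :=
  ⟨fun n => match n with
    | 0 => x.1 0
    | 1 => ⟨(x.1 1, S), hS⟩
    | n + 2 => ⟨(x.1 (n + 2), S, o), ⟨⟨x.1 1, Ext.body x (by omega), hS⟩, ho n⟩⟩,
   fun n => match n with
    | 0 => x.2 0
    | 1 => by
        apply Subtype.ext
        simp [closedTree, cres, x.2 1]
    | n + 2 => by
        apply Subtype.ext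
        simp [closedTree, cres, x.2 (n + 2)]⟩

theorem cbody_proj (x : T.Body) (S : Set T.Pos) (o : T.Pos ⊕ Set T.Pos)
    (hS : QE (x.1 1) S) (ho : ∀ n, OptOK D S ⟨n + 2, x.1 (n + 2)⟩ o) (n : ℕ) :
    cproj T D n ((cbody (hD := hD) x S o hS ho).1 n) = x.1 n := by
  match n with
  | 0 => rfl
  | 1 => rfl
  | n + 2 => rfl

end

end Pool.Agent.BorelDet
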