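import Pool.Agent.Lib.BorelDet.ClosedTree

/-!
# Borel determinacy, part 6: transformation of the strategies of the second player

Let `σ'` be a strategy of the second player in `closedTree T D hD`.  The strategy `φ σ'` in `T`:
for a position `q` of length one let
`U_q = {u | exists S with QE q S and (σ'.1 1 (q, S)).1.2.2 = inl u}` and `F_q = Force true univ U_q`.
At an odd level `n`, at a position `r` with ancestor `q` at level one:
* if some ancestor of `r` is in `U_q`, let `u` be the first one and choose `S_u` (depending only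
  on `q` and `u`) with `(σ'.1 1 (q, S_u)).1.2.2 = inl u`: play the move of `σ'` at
  `(r, S_u, inl u)` (here `n ≥ 3`);
* otherwise, if some ancestor of level `≥ 1` of `r` is in `F_q`, let `a` be the first one: play
  a strategy `σ_a` which forces `U_q` from `a` (`Force.exists_strat` with `S = univ`);
* otherwise let `S = {s | Ext ⟨1, q⟩ s, no ancestor of level ≥ 1 of s is in F_q}`, which satisfies
  `QE q S`.  Then `(σ'.1 1 (q, S)).1.2.2 = inr S'` for some `S'`.  If `n = 1` play the move of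
  `σ'` at `(q, S)`, if `n ≥ 3` play the move of `σ'` at `(r, S, inr S')`.
-/

namespace Pool.Agent.BorelDet

universe u

open GTree

variable {T : GTree.{u}}

namespace PhiO

variable {D : Set T.Pos}

/-- The option chosen by the section `s` of level one at `(q, S)`. -/
noncomputable def opt (s : CLevel T D 1 → CLevel T D 2) (q : T.P 1) (S : Set T.Pos) :
    T.Pos ⊕ Set T.Pos :=
  open Classical in
  if h : QE q S then (s ⟨(q, S), h⟩ : CLevel T D (0 + 2)).1.2.2 else Sum.inr ∅

/-- The move of the section `s` of level one at `(q, S)`. -/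
noncomputable def mv1 (s : CLevel T D 1 → CLevel T D 2) (q : T.P 1) (S : Set T.Pos) : T.P 2 :=
  open Classical in
  if h : QE q S then (s ⟨(q, S), h⟩ : CLevel T D (0 + 2)).1.1 else T.someStrat.1 1 q

/-- The move of the section `t` of level `k + 2` at `(r, S, o)`. -/
noncomputable def mv {k : ℕ} (t : CLevel T D (k + 2) → CLevel T D (k + 3)) (r : T.P (k + 2))
    (S : Set T.Pos) (o : T.Pos ⊕ Set T.Pos) : T.P (k + 3) :=
  open Classical in
  if h : Valid D k (r, S, o) then (t ⟨(r, S, o), h⟩ : CLevel T D (k + 1 + 2)).1.1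
  else T.someStrat.1 (k + 2) r

/-- The dead positions announced above `q`. -/
def US (s : CLevel T D 1 → CLevel T D 2) (q : T.P 1) : Set T.Pos :=
  {u | ∃ S, QE q S ∧ opt s q S = Sum.inl u}

/-- The positions from which the second player can reach `US`. -/
def FS (s : CLevel T D 1 → CLevel T D 2) (q : T.P 1) : Set T.Pos :=
  {a | 1 ≤ a.1 ∧ Force true Set.univ (US s q) a}

/-- A quasi strategy for which `u` is announced. -/
noncomputable def SU (s : CLevel T D 1 → CLevel T D 2) (q : T.P 1) (u : T.Pos) : Set T.Pos :=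
  open Classical in
  if h : ∃ S, QE q S ∧ opt s q S = Sum.inl u then h.choose else ∅

/-- A strategy which forces `US` from `a`. -/
noncomputable def stratF (s : CLevel T D 1 → CLevel T D 2) (q : T.P 1) (a : T.Pos) : T.Strat :=
  open Classical in
  if h : Force true Set.univ (US s q) a then
    (Force.exists_strat (fun _ _ _ _ => Set.mem_univ _) h (Set.mem_univ a)).choose
  else T.someStrat

/-- The positions above `q` which avoid `FS`. -/
def AV (s : CLevel T D 1 → CLevel T D 2) (q : T.P 1) : Set T.Pos :=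
  {b | T.Ext ⟨1, q⟩ b ∧ ∀ a, T.Ext ⟨1, q⟩ a → T.Ext a b → ¬ Force true Set.univ (US s q) a}

/-- The ancestor at level one. -/
noncomputable def anc {k : ℕ} (r : T.P (k + 2)) : T.P 1 :=
  (Ext.exists_ancestor (⟨k + 2, r⟩ : T.Pos) 1 (by simp)).choose

theorem anc_spec {k : ℕ} (r : T.P (k + 2)) : T.Ext ⟨1, anc r⟩ ⟨k + 2, r⟩ :=
  (Ext.exists_ancestor (⟨k + 2, r⟩ : T.Pos) 1 (by simp)).choose_spec

theorem anc_body (x : T.Body) (k : ℕ) : anc (x.1 (k + 2)) = x.1 1 :=
  Ext.unique (anc_spec _) (Ext.body x (by omega))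

theorem ext_of_eq {a b : T.Pos} (h : a = b) : T.Ext a b := by
  subst h; exact Ext.refl _

/-- The moves of the new strategy. -/
noncomputable def move (s : CLevel T D 1 → CLevel T D 2) :
    ∀ n, (CLevel T D n → CLevel T D (n + 1)) → T.P n → T.P (n + 1)
  | 0 => fun _ r => T.someStrat.1 0 r
  | 1 => fun _ q =>
      open Classical in
      if Force true Set.univ (US s q) ⟨1, q⟩ then (stratF s q ⟨1, q⟩).1 1 q
      else mv1 s q (AV s q)
  | k + 2 => fun t r =>
      open Classical in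
      if h : ∃ u, First (US s (anc r)) u ⟨k + 2, r⟩ then
        mv t r (SU s (anc r) h.choose) (Sum.inl h.choose)
      else if h' : ∃ a, First (FS s (anc r)) a ⟨k + 2, r⟩ then
        (stratF s (anc r) h'.choose).1 (k + 2) r
      else mv t r (AV s (anc r)) (opt s (anc r) (AV s (anc r)))

theorem move_one (s : CLevel T D 1 → CLevel T D 2) (t : CLevel T D 1 → CLevel T D 2)
    (q : T.P 1) : move s 1 t q =
      open Classical in
      if Force true Set.univ (US s q) ⟨1, q⟩ then (stratF s q ⟨1, q⟩).1 1 q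
      else mv1 s q (AV s q) := rfl

theorem move_two (s : CLevel T D 1 → CLevel T D 2) {k : ℕ}
    (t : CLevel T D (k + 2) → CLevel T D (k + 3)) (r : T.P (k + 2)) : move s (k + 2) t r =
      open Classical in
      if h : ∃ u, First (US s (anc r)) u ⟨k + 2, r⟩ then
        mv t r (SU s (anc r) h.choose) (Sum.inl h.choose)
      else if h' : ∃ a, First (FS s (anc r)) a ⟨k + 2, r⟩ then
        (stratF s (anc r) h'.choose).1 (k + 2) r
      else mv t r (AV s (anc r)) (opt s (anc r) (AV s (anc r))) := rfl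

theorem mv1_res {s : CLevel T D 1 → CLevel T D 2} (hs : ∀ p, cres T D 1 (s p) = p)
    (q : T.P 1) (S : Set T.Pos) : T.res 1 (mv1 s q S) = q := by
  unfold mv1
  split_ifs with h
  · exact congrArg (fun y : CLevel T D 1 => y.1.1) (hs ⟨(q, S), h⟩)
  · exact T.someStrat.2 1 q

theorem mv_res {k : ℕ} {t : CLevel T D (k + 2) → CLevel T D (k + 3)}
    (ht : ∀ p, cres T D (k + 2) (t p) = p) (r : T.P (k + 2)) (S : Set T.Pos)
    (o : T.Pos ⊕ Set T.Pos) : T.res (k + 2) (mv t r S o) = r := by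
  unfold mv
  split_ifs with h
  · exact congrArg (fun y : CLevel T D (k + 2) => y.1.1) (ht ⟨(r, S, o), h⟩)
  · exact T.someStrat.2 (k + 2) r

theorem move_res {s : CLevel T D 1 → CLevel T D 2} (hs : ∀ p, cres T D 1 (s p) = p) :
    ∀ (n : ℕ) (t : CLevel T D n → CLevel T D (n + 1)) (_ : ∀ p, cres T D n (t p) = p)
      (r : T.P n), T.res n (move s n t r) = r
  | 0, t, _, r => T.someStrat.2 0 r
  | 1, t, _, q => by
      rw [move_one]
      split_ifs with h
      · exact (stratF s q ⟨1, q⟩).2 1 q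
      · exact mv1_res hs q _
  | k + 2, t, ht, r => by
      rw [move_two]
      split_ifs with h h'
      · exact mv_res ht r _ _
      · exact (stratF s (anc r) h'.choose).2 (k + 2) r
      · exact mv_res ht r _ _

/-- At level one: the data of the value of a section. -/
theorem sec_one {s : CLevel T D 1 → CLevel T D 2} (hs : ∀ p, cres T D 1 (s p) = p)
    {q : T.P 1} {S : Set T.Pos} (h : QE q S) :
    (s ⟨(q, S), h⟩ : CLevel T D (0 + 2)).1 = (mv1 s q S, S, opt s q S) := by
  have h2 : (s ⟨(q, S), h⟩ : CLevel T D (0 + 2)).1.2.1 = S :=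
    congrArg (fun y : CLevel T D 1 => y.1.2) (hs ⟨(q, S), h⟩)
  unfold mv1 opt
  rw [dif_pos h, dif_pos h]
  exact Prod.ext rfl (Prod.ext h2 rfl)

/-- At level one: the value is valid. -/
theorem sec_one_valid {s : CLevel T D 1 → CLevel T D 2} (hs : ∀ p, cres T D 1 (s p) = p)
    {q : T.P 1} {S : Set T.Pos} (h : QE q S) : Valid D 0 (mv1 s q S, S, opt s q S) := by
  rw [← sec_one hs h]
  exact (s ⟨(q, S), h⟩ : CLevel T D (0 + 2)).2

/-- At a level `k + 2`: the data of the value of a section. -/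
theorem sec_two {k : ℕ} {t : CLevel T D (k + 2) → CLevel T D (k + 3)}
    (ht : ∀ p, cres T D (k + 2) (t p) = p) {r : T.P (k + 2)} {S : Set T.Pos}
    {o : T.Pos ⊕ Set T.Pos} (h : Valid D k (r, S, o)) :
    (t ⟨(r, S, o), h⟩ : CLevel T D (k + 1 + 2)).1 = (mv t r S o, S, o) := by
  have h2 : (t ⟨(r, S, o), h⟩ : CLevel T D (k + 1 + 2)).1.2 = (S, o) :=
    congrArg (fun y : CLevel T D (k + 2) => y.1.2) (ht ⟨(r, S, o), h⟩)
  unfold mv
  rw [dif_pos h]
  exact Prod.ext rfl h2

theorem sec_two_valid {k : ℕ} {t : CLevel T D (k + 2) → CLevel T D (k + 3)}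
    (ht : ∀ p, cres T D (k + 2) (t p) = p) {r : T.P (k + 2)} {S : Set T.Pos}
    {o : T.Pos ⊕ Set T.Pos} (h : Valid D k (r, S, o)) : Valid D (k + 1) (mv t r S o, S, o) := by
  rw [← sec_two ht h]
  exact (t ⟨(r, S, o), h⟩ : CLevel T D (k + 1 + 2)).2

theorem SU_spec {s : CLevel T D 1 → CLevel T D 2} {q : T.P 1} {u : T.Pos} (h : u ∈ US s q) :
    QE q (SU s q u) ∧ opt s q (SU s q u) = Sum.inl u := by
  have h' : ∃ S, QE q S ∧ opt s q S = Sum.inl u := h
  unfold SU
  rw [dif_pos h']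
  exact h'.choose_spec

theorem stratF_spec {s : CLevel T D 1 → CLevel T D 2} {q : T.P 1} {a : T.Pos}
    (h : Force true Set.univ (US s q) a) (x : T.Body) (hx : x.1 a.1 = a.2)
    (hc : ∀ n, a.1 ≤ n → Nat.bodd n = true →
      (∀ m, a.1 ≤ m → m ≤ n → (⟨m, x.1 m⟩ : T.Pos) ∉ US s q) →
      x.1 (n + 1) = (stratF s q a).1 n (x.1 n)) :
    ∃ m, a.1 ≤ m ∧ (⟨m, x.1 m⟩ : T.Pos) ∈ US s q := by
  unfold stratF at hc
  rw [dif_pos h] at hc
  obtain ⟨m, h1, h2, _⟩ :=
    (Force.exists_strat (fun _ _ _ _ => Set.mem_univ _) h (Set.mem_univ a)).choose_spec x hx hc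
  exact ⟨m, h1, h2⟩

/-- The facts about an announced position. -/
theorem US_spec {s : CLevel T D 1 → CLevel T D 2} (hs : ∀ p, cres T D 1 (s p) = p)
    {q : T.P 1} {u : T.Pos} (h : u ∈ US s q) :
    u ∈ SU s q u ∧ u ∈ D ∧ Nat.bodd u.1 = false ∧ 2 ≤ u.1 ∧
      T.Ext ⟨2, mv1 s q (SU s q u)⟩ u := by
  obtain ⟨h1, h2⟩ := SU_spec h
  have hv := (sec_one_valid hs h1).2
  rw [h2] at hv
  obtain ⟨h3, h4, h5, h6, h7⟩ := hv
  refine ⟨h3, h4, h5, h6, ?_⟩
  rcases h7 with h7 | h7
  · exact h7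
  · exact ext_of_eq (h7.eq_of_level h6).symm

theorem AV_QE {s : CLevel T D 1 → CLevel T D 2} {q : T.P 1}
    (h : ¬ Force true Set.univ (US s q) ⟨1, q⟩) : QE q (AV s q) where
  mem := ⟨Ext.refl _, fun a h1 h2 => by rw [h2.antisymm h1]; exact h⟩
  ext := fun a ha => ha.1
  down := fun n r hn hr =>
    ⟨hr.1.of_succ (by simpa using hn), fun a h1 h2 => hr.2 a h1 (h2.trans (Ext.single r))⟩
  theirs := fun n r hn hr => by
    refine ⟨hr.1.trans (Ext.single r), fun a h1 h2 => ?_⟩
    have hf := not_force_mine hn (hr.2 _ hr.1 (Ext.refl _)) (q := r) rfl (Set.mem_univ _)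
    by_cases hl : a.1 ≤ n
    · exact hr.2 a h1 (h2.of_succ hl)
    · rw [h2.eq_of_level (by simp only; omega)]
      exact hf
  mine := fun n p hn hp => by
    obtain ⟨r, hr, hf⟩ := not_force_theirs (by simpa using hn) (hp.2 _ hp.1 (Ext.refl _))
    subst hr
    refine ⟨r, rfl, hp.1.trans (Ext.single r), fun a h1 h2 => ?_⟩
    by_cases hl : a.1 ≤ n
    · exact hp.2 a h1 (h2.of_succ hl)
    · rw [h2.eq_of_level (by simp only; omega)]
      exact hf

/-- The option at `AV` is a quasi strategy. -/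
theorem AV_opt {s : CLevel T D 1 → CLevel T D 2} (hs : ∀ p, cres T D 1 (s p) = p) {q : T.P 1}
    (h : ¬ Force true Set.univ (US s q) ⟨1, q⟩) :
    ∃ S', opt s q (AV s q) = Sum.inr S' ∧ QO D (AV s q) S' ∧
      (⟨2, mv1 s q (AV s q)⟩ : T.Pos) ∈ S' := by
  have hv := (sec_one_valid hs (AV_QE h)).2
  cases ho : opt s q (AV s q) with
  | inl u =>
    exfalso
    rw [ho] at hv
    obtain ⟨h1, _⟩ := hv
    exact h1.2 u h1.1 (Ext.refl _) (.here u ⟨_, AV_QE h, ho⟩)
  | inr S' =>
    rw [ho] at hv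
    exact ⟨S', rfl, hv.1, hv.2⟩

/-- The branch constructed from a branch of `T` which follows the new strategy. -/
theorem lift_data {s : CLevel T D 1 → CLevel T D 2} (hs : ∀ p, cres T D 1 (s p) = p)
    {t : ∀ k, CLevel T D (k + 2) → CLevel T D (k + 3)}
    (ht : ∀ k p, cres T D (k + 2) (t k p) = p) (x : T.Body)
    (hx1 : x.1 2 = move s 1 s (x.1 1))
    (hx2 : ∀ k, Nat.bodd (k + 2) = true → x.1 (k + 3) = move s (k + 2) (t k) (x.1 (k + 2))) :
    ∃ (S : Set T.Pos) (o : T.Pos ⊕ Set T.Pos) (hS : QE (x.1 1) S)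
      (_ : ∀ n, OptOK D S ⟨n + 2, x.1 (n + 2)⟩ o),
      (s ⟨(x.1 1, S), hS⟩ : CLevel T D (0 + 2)).1 = (x.1 2, S, o) ∧
      ∀ n, Nat.bodd (n + 2) = true → ∀ hv : Valid D n (x.1 (n + 2), S, o),
        (t n ⟨(x.1 (n + 2), S, o), hv⟩ : CLevel T D (n + 1 + 2)).1 = (x.1 (n + 3), S, o) := by
  by_cases hU : ∃ m, (⟨m, x.1 m⟩ : T.Pos) ∈ US s (x.1 1)
  · -- the branch meets an announced position
    obtain ⟨m, hm⟩ := hU
    obtain ⟨k, _, hkU, _, hkF⟩ := First.body hm
    obtain ⟨hS1, hS2⟩ := SU_spec hkU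
    obtain ⟨hu1, hu2, hu3, hu4, hu5⟩ := US_spec hs hkU
    have ho : ∀ n, OptOK D (SU s (x.1 1) ⟨k, x.1 k⟩) ⟨n + 2, x.1 (n + 2)⟩
        (Sum.inl ⟨k, x.1 k⟩) := by
      intro n
      refine ⟨hu1, hu2, hu3, hu4, ?_⟩
      rcases le_total (n + 2) k with h | h
      · exact Or.inl (Ext.body x h)
      · exact Or.inr (Ext.body x h)
    refine ⟨SU s (x.1 1) ⟨k, x.1 k⟩, Sum.inl ⟨k, x.1 k⟩, hS1, ho, ?_, ?_⟩
    · have h3 := sec_one hs hS1
      have h4 : mv1 s (x.1 1) (SU s (x.1 1) ⟨k, x.1 k⟩) = x.1 2 :=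
        Ext.unique hu5 (Ext.body x hu4)
      rw [hS2, h4] at h3
      exact h3
    · intro n hn hv
      have h3 := sec_two (ht n) hv
      have h4 : mv (t n) (x.1 (n + 2)) (SU s (x.1 1) ⟨k, x.1 k⟩)
          (Sum.inl ⟨k, x.1 k⟩) = x.1 (n + 3) := by
        by_cases hkn : n + 3 ≤ k
        · have h5 := (sec_two_valid (ht n) hv).2
          obtain ⟨_, _, _, _, h6⟩ := h5
          rcases h6 with h6 | h6
          · exact Ext.unique h6 (Ext.body x hkn)
          · have h7 := h6.eq_of_level (by simpa using hkn)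
            exact Ext.unique (ext_of_eq h7.symm) (Ext.body x hkn)
        · have hk2 : k ≤ n + 2 := by omega
          have hF := hkF (n + 2) hk2
          rw [hx2 n hn, move_two]
          have hF' : First (US s (anc (x.1 (n + 2)))) ⟨k, x.1 k⟩ ⟨n + 2, x.1 (n + 2)⟩ := by
            rw [anc_body]; exact hF
          have hex : ∃ u, First (US s (anc (x.1 (n + 2)))) u ⟨n + 2, x.1 (n + 2)⟩ := ⟨_, hF'⟩
          rw [dif_pos hex, hex.choose_spec.unique hF', anc_body]
      rw [h4] at h3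
      exact h3
  · -- the branch avoids all announced positions
    have hU : ∀ m, (⟨m, x.1 m⟩ : T.Pos) ∉ US s (x.1 1) := fun m hm => hU ⟨m, hm⟩
    have hF : ∀ m, 1 ≤ m → ¬ Force true Set.univ (US s (x.1 1)) ⟨m, x.1 m⟩ := by
      intro m hm hf
      obtain ⟨k, hkm, hkU, _, hkF⟩ := First.body (U := FS s (x.1 1)) (x := x) (m := m)
        ⟨hm, hf⟩
      obtain ⟨m', _, hm'⟩ := stratF_spec hkU.2 x rfl (by
        intro n hn hodd _
        simp only at hn
        match n, hn, hodd with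
        | 0, hn, hodd => simp at hodd
        | 1, hn, hodd =>
          have hk1 : k = 1 := le_antisymm hn hkU.1
          subst hk1
          rw [hx1, move_one, if_pos hkU.2]
        | n + 2, hn, hodd =>
          rw [hx2 n hodd, move_two]
          have hex : ¬ ∃ u, First (US s (anc (x.1 (n + 2)))) u ⟨n + 2, x.1 (n + 2)⟩ := by
            rw [anc_body]
            rintro ⟨u, hu1, hu2, _⟩
            apply hU u.1
            rw [Ext.of_body' hu2]
            exact hu1
          have hF' : First (FS s (anc (x.1 (n + 2)))) ⟨k, x.1 k⟩ ⟨n + 2, x.1 (n + 2)⟩ := by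
            rw [anc_body]; exact hkF (n + 2) hn
          have hex' : ∃ u, First (FS s (anc (x.1 (n + 2)))) u ⟨n + 2, x.1 (n + 2)⟩ := ⟨_, hF'⟩
          rw [dif_neg hex, dif_pos hex', hex'.choose_spec.unique hF', anc_body])
      exact hU m' hm'
    have hF1 := hF 1 le_rfl
    obtain ⟨S', hS'1, hS'2, hS'3⟩ := AV_opt hs hF1
    have hQ := AV_QE hF1
    have hAV : ∀ m, 1 ≤ m → (⟨m, x.1 m⟩ : T.Pos) ∈ AV s (x.1 1) := by
      intro m hm
      refine ⟨Ext.body x hm, fun a h1 h2 => ?_⟩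
      rw [← Ext.of_body' h2]
      exact hF a.1 h1.level_le
    have h2 : mv1 s (x.1 1) (AV s (x.1 1)) = x.1 2 := by
      rw [hx1, move_one, if_neg hF1]
    rw [h2] at hS'3
    have hval : ∀ n, (⟨n + 2, x.1 (n + 2)⟩ : T.Pos) ∈ S' →
        Valid D n (x.1 (n + 2), AV s (x.1 1), Sum.inr S') := fun n hn =>
      ⟨⟨x.1 1, Ext.body x (by omega), hQ⟩, hS'2, hn⟩
    have hmv : ∀ n, Nat.bodd (n + 2) = true →
        mv (t n) (x.1 (n + 2)) (AV s (x.1 1)) (Sum.inr S') = x.1 (n + 3) := by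
      intro n hn
      rw [hx2 n hn, move_two]
      have hex : ¬ ∃ u, First (US s (anc (x.1 (n + 2)))) u ⟨n + 2, x.1 (n + 2)⟩ := by
        rw [anc_body]
        rintro ⟨u, hu1, hu2, _⟩
        apply hU u.1
        rw [Ext.of_body' hu2]
        exact hu1
      have hex' : ¬ ∃ u, First (FS s (anc (x.1 (n + 2)))) u ⟨n + 2, x.1 (n + 2)⟩ := by
        rw [anc_body]
        rintro ⟨u, hu1, hu2, _⟩
        apply hF u.1 hu1.1
        rw [Ext.of_body' hu2]
        exact hu1.2
      rw [dif_neg hex, dif_neg hex', anc_body, hS'1]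
    have hall : ∀ n, (⟨n + 2, x.1 (n + 2)⟩ : T.Pos) ∈ S' := by
      intro n
      induction n with
      | zero => exact hS'3
      | succ n ih =>
        cases hb : Nat.bodd (n + 2) with
        | true =>
          have h3 := (sec_two_valid (ht n) (hval n ih)).2.2
          rw [hmv n hb] at h3
          exact h3
        | false =>
          apply hS'2.theirs (n + 2) (x.1 (n + 3)) hb _ (hAV (n + 3) (by omega))
          rw [x.2 (n + 2)]
          exact ih
    have ho : ∀ n, OptOK D (AV s (x.1 1)) ⟨n + 2, x.1 (n + 2)⟩ (Sum.inr S') :=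
      fun n => ⟨hS'2, hall n⟩
    refine ⟨AV s (x.1 1), Sum.inr S', hQ, ho, ?_, ?_⟩
    · have h3 := sec_one hs hQ
      rw [hS'1, h2] at h3
      exact h3
    · intro n hn hv
      have h3 := sec_two (ht n) hv
      rw [hmv n hn] at h3
      exact h3

end PhiO

open PhiO

theorem exists_phiO (T : GTree.{u}) (D : Set T.Pos)
    (hD : ∀ (n : ℕ) (q : T.P (n + 1)), (⟨n, T.res n q⟩ : T.Pos) ∈ D →
      (⟨n + 1, q⟩ : T.Pos) ∈ D) :
    ∃ φ : (closedTree T D hD).Strat → T.Strat,
      (∀ (σ σ' : (closedTree T D hD).Strat) (n : ℕ), Nat.bodd n = true →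
        (∀ m, m ≤ n → Nat.bodd m = true → σ.1 m = σ'.1 m) → (φ σ).1 n = (φ σ').1 n) ∧
      (∀ (σ : (closedTree T D hD).Strat) (x : T.Body), Cons true (φ σ) x →
        ∃ x' : (closedTree T D hD).Body, Cons true σ x' ∧
          ∀ n, cproj T D n (x'.1 n) = x.1 n) := by
  classical
  refine ⟨fun σ => ⟨fun n r => move (σ.1 1) n (σ.1 n) r,
    fun n p => move_res (σ.2 1) n (σ.1 n) (σ.2 n) p⟩, ?_, ?_⟩
  · intro σ σ' n hn h
    have h1 : 1 ≤ n := by
      rcases Nat.eq_zero_or_pos n with h0 | h0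
      · subst h0; simp at hn
      · exact h0
    show (fun r => move (σ.1 1) n (σ.1 n) r) = (fun r => move (σ'.1 1) n (σ'.1 n) r)
    rw [h 1 h1 (by rfl), h n le_rfl hn]
  · intro σ x hx
    obtain ⟨S, o, hS, ho, h1, h2⟩ := lift_data (D := D) (s := σ.1 1)
      (t := fun k => σ.1 (k + 2)) (σ.2 1) (fun k => σ.2 (k + 2)) x (hx 1 rfl)
      (fun k hk => hx (k + 2) hk)
    refine ⟨cbody x S o hS ho, ?_, cbody_proj x S o hS ho⟩
    intro n hn
    match n, hn with
    | 0, hn => simp at hn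
    | 1, hn => exact Subtype.ext h1.symm
    | n + 2, hn => exact Subtype.ext (h2 n hn _).symm

end Pool.Agent.BorelDet
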