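import Pool.Agent.Lib.BorelDet.PhiE
import Pool.Agent.Lib.BorelDet.PhiO

/-!
# Borel determinacy, part 7: closed sets are unravelled by coverings
-/

namespace Pool.Agent.BorelDet

universe u

open GTree

/-- Every closed set is unravelled by a covering which is the identity at level zero. -/
theorem closed_zero (T : GTree.{u}) (X : Set T.Body) (hX : IsOpenB Xᶜ) :
    ∃ (T' : GTree.{u}) (c : Cov T' T), c.Upto 0 ∧ LevelDet (c.map ⁻¹' X) := by
  classical
  -- the dead positions
  let D : Set T.Pos := {a | ∀ x : T.Body, x.1 a.1 = a.2 → x ∉ X}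
  have hD : ∀ (n : ℕ) (q : T.P (n + 1)), (⟨n, T.res n q⟩ : T.Pos) ∈ D →
      (⟨n + 1, q⟩ : T.Pos) ∈ D := by
    intro n q h x hx
    have hx' : x.1 (n + 1) = q := hx
    exact h x (by show x.1 n = T.res n q; rw [← hx', x.2 n])
  have hmem : ∀ x : T.Body, x ∈ X ↔ ∀ n, (⟨n, x.1 n⟩ : T.Pos) ∉ D := by
    intro x
    constructor
    · intro hx n hn
      exact hn x rfl hx
    · intro h
      by_contra hx
      obtain ⟨n, hn⟩ := hX x hx
      exact h n (fun y hy => hn y hy)
  obtain ⟨φE, locE, liftE⟩ := exists_phiE T D hD
  obtain ⟨φO, locO, liftO⟩ := exists_phiO T D hD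
  let c : Cov (closedTree T D hD) T :=
    { π := cproj T D
      comm := fun n p => cproj_comm T D n p
      φ := fun e => if e = true then φO else φE
      loc := by
        intro e σ σ' n hn h
        cases e with
        | false => simpa using locE σ σ' n hn h
        | true => simpa using locO σ σ' n hn h
      lift := by
        intro e σ x hx
        cases e with
        | false => exact liftE σ x (by simpa using hx)
        | true => exact liftO σ x (by simpa using hx) }
  refine ⟨closedTree T D hD, c, ⟨?_, ?_⟩, ?_⟩
  · intro n hn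
    obtain rfl : n = 0 := by omega
    exact Function.bijective_id
  · intro e σ n hn
    exact absurd hn (Nat.not_lt_zero n)
  · have key : ∀ x : (closedTree T D hD).Body,
        x ∈ c.map ⁻¹' X ↔ (x.1 2 : CLevel T D (0 + 2)).1.2.2.isRight = true := by
      intro x
      rw [← closedTree_levelDet x]
      exact hmem (c.map x)
    refine ⟨2, fun x y hxy hx => ?_⟩
    rw [key] at hx ⊢
    rw [← hxy]
    exact hx

end Pool.Agent.BorelDet
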