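import Pool.Agent.Lib.BorelDet.Pos

/-!
# Borel determinacy, part 3: open games

`Force e S U a`: from the position `a` the player `e`, moving inside `S`, can force to reach `U`.
-/

namespace Pool.Agent.BorelDet

universe u

open GTree

variable {T : GTree.{u}}

/-- Player `e` can force the play into `U`, his own moves staying inside `S`. -/
inductive Force (e : Bool) (S U : Set T.Pos) : T.Pos → Prop
  | here (a : T.Pos) : a ∈ U → Force e S U a
  | mine {n : ℕ} (p : T.P n) (q : T.P (n + 1)) : Nat.bodd n = e → T.res n q = p →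
      (⟨n + 1, q⟩ : T.Pos) ∈ S → Force e S U ⟨n + 1, q⟩ → Force e S U ⟨n, p⟩
  | theirs {n : ℕ} (p : T.P n) : Nat.bodd n = !e →
      (∀ q : T.P (n + 1), T.res n q = p → Force e S U ⟨n + 1, q⟩) → Force e S U ⟨n, p⟩

/-- A position which is not forced: at a level of `e` no successor in `S` is forced. -/
theorem not_force_mine {e : Bool} {S U : Set T.Pos} {n : ℕ} {p : T.P n} (hn : Nat.bodd n = e)
    (h : ¬ Force e S U ⟨n, p⟩) {q : T.P (n + 1)} (hq : T.res n q = p)
    (hS : (⟨n + 1, q⟩ : T.Pos) ∈ S) : ¬ Force e S U ⟨n + 1, q⟩ :=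
  fun h' => h (.mine p q hn hq hS h')

/-- A position which is not forced: at a level of the opponent some successor is not forced. -/
theorem not_force_theirs {e : Bool} {S U : Set T.Pos} {n : ℕ} {p : T.P n}
    (hn : Nat.bodd n = !e) (h : ¬ Force e S U ⟨n, p⟩) :
    ∃ q : T.P (n + 1), T.res n q = p ∧ ¬ Force e S U ⟨n + 1, q⟩ := by
  by_contra hc
  push Not at hc
  exact h (.theirs p hn hc)

theorem not_force_notMem {e : Bool} {S U : Set T.Pos} {a : T.Pos} (h : ¬ Force e S U a) :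
    a ∉ U := fun h' => h (.here a h')

/-- The opponent can stay in the unforced positions. -/
theorem exists_avoid (e : Bool) (S U : Set T.Pos) :
    ∃ τ : T.Strat, ∀ (n : ℕ) (p : T.P n), Nat.bodd n = !e → ¬ Force e S U ⟨n, p⟩ →
      ¬ Force e S U ⟨n + 1, τ.1 n p⟩ := by
  classical
  have h : ∀ (n : ℕ) (p : T.P n), ∃ q : T.P (n + 1), T.res n q = p ∧
      (Nat.bodd n = !e → ¬ Force e S U ⟨n, p⟩ → ¬ Force e S U ⟨n + 1, q⟩) := by
    intro n p
    by_cases hc : Nat.bodd n = !e ∧ ¬ Force e S U ⟨n, p⟩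
    · obtain ⟨q, hq, hq'⟩ := not_force_theirs hc.1 hc.2
      exact ⟨q, hq, fun _ _ => hq'⟩
    · obtain ⟨q, hq⟩ := T.surj n p
      exact ⟨q, hq, fun h1 h2 => absurd ⟨h1, h2⟩ hc⟩
  choose f hf hf' using h
  exact ⟨⟨f, hf⟩, hf'⟩

/-- The conclusion of `Force.exists_strat` for one strategy. -/
def WinF (e : Bool) (S U : Set T.Pos) (a : T.Pos) (σ : T.Strat) : Prop :=
  ∀ x : T.Body, x.1 a.1 = a.2 →
      (∀ n, a.1 ≤ n → Nat.bodd n = e →
        (∀ m, a.1 ≤ m → m ≤ n → (⟨m, x.1 m⟩ : T.Pos) ∉ U) → x.1 (n + 1) = σ.1 n (x.1 n)) →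
      ∃ m, a.1 ≤ m ∧ (⟨m, x.1 m⟩ : T.Pos) ∈ U ∧
        ∀ j, a.1 ≤ j → j ≤ m → (⟨j, x.1 j⟩ : T.Pos) ∈ S

theorem WinF.of_mem {e : Bool} {S U : Set T.Pos} {a : T.Pos} (hS : a ∈ S) (hU : a ∈ U)
    (σ : T.Strat) : WinF e S U a σ := by
  intro x hx _
  obtain ⟨n, p⟩ := a
  simp only at hx
  subst hx
  refine ⟨n, le_rfl, hU, fun j hj hj' => ?_⟩
  obtain rfl : n = j := le_antisymm hj hj'
  exact hS

theorem Force.exists_strat_aux {e : Bool} {S U : Set T.Pos}
    (hS : ∀ (n : ℕ) (q : T.P (n + 1)), Nat.bodd n = !e → (⟨n, T.res n q⟩ : T.Pos) ∈ S →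
      (⟨n + 1, q⟩ : T.Pos) ∈ S)
    {a : T.Pos} (ha : Force e S U a) : a ∈ S → ∃ σ : T.Strat, WinF e S U a σ := by
  classical
  induction ha with
  | here a hU => exact fun haS => ⟨T.someStrat, WinF.of_mem haS hU _⟩
  | @mine n p q hn hq hqS _ ih =>
    intro haS
    by_cases hU : (⟨n, p⟩ : T.Pos) ∈ U
    · exact ⟨T.someStrat, WinF.of_mem haS hU _⟩
    obtain ⟨σ₀, h₀⟩ := ih hqS
    let s : ∀ m, T.P m → T.P (m + 1) :=
      Function.update σ₀.1 n (fun r => if r = p then q else σ₀.1 n r)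
    have hs : ∀ m r, T.res m (s m r) = r := by
      intro m r
      by_cases hm : m = n
      · subst hm
        simp only [s, Function.update_self]
        split_ifs with h
        · rw [h, hq]
        · exact σ₀.2 m r
      · simp only [s, Function.update_of_ne hm]
        exact σ₀.2 m r
    refine ⟨⟨s, hs⟩, fun x hx hc => ?_⟩
    simp only at hx
    subst hx
    have hxq : x.1 (n + 1) = q := by
      rw [hc n le_rfl hn (fun m h1 h2 => by
        obtain rfl : n = m := le_antisymm h1 h2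
        exact hU)]
      simp [s]
    obtain ⟨m, hm, hmU, hmS⟩ := h₀ x hxq (by
      intro k hk hke hkU
      have hne : k ≠ n := by simp only at hk; omega
      rw [hc k (by simp only at hk ⊢; omega) hke (fun m h1 h2 => by
        by_cases hmn : m = n
        · subst hmn; exact hU
        · exact hkU m (by simp only at h1 ⊢; omega) h2)]
      simp [s, Function.update_of_ne hne])
    simp only at hm
    refine ⟨m, by simp only; omega, hmU, fun j hj hj' => ?_⟩
    by_cases hjn : j = n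
    · subst hjn; exact haS
    · exact hmS j (by simp only at hj ⊢; omega) hj'
  | @theirs n p hn _ ih =>
    intro haS
    by_cases hU : (⟨n, p⟩ : T.Pos) ∈ U
    · exact ⟨T.someStrat, WinF.of_mem haS hU _⟩
    have ih' : ∀ q : T.P (n + 1), T.res n q = p → ∃ σ : T.Strat, WinF e S U ⟨n + 1, q⟩ σ := by
      intro q hq
      refine ih q hq (hS n q hn ?_)
      rw [hq]; exact haS
    choose f hf using ih'
    let s : ∀ m, T.P m → T.P (m + 1) := fun m r =>
      if h : ∃ q, T.res n q = p ∧ T.Ext ⟨n + 1, q⟩ ⟨m, r⟩ then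
        (f h.choose h.choose_spec.1).1 m r
      else T.someStrat.1 m r
    have hs : ∀ m r, T.res m (s m r) = r := by
      intro m r
      simp only [s]
      split_ifs with h
      · exact (f _ _).2 m r
      · exact T.someStrat.2 m r
    refine ⟨⟨s, hs⟩, fun x hx hc => ?_⟩
    simp only at hx
    subst hx
    obtain ⟨m, hm, hmU, hmS⟩ := hf (x.1 (n + 1)) (x.2 n) x rfl (by
      intro k hk hke hkU
      simp only at hk
      rw [hc k (by simp only; omega) hke (fun m h1 h2 => by
        by_cases hmn : m = n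
        · subst hmn; exact hU
        · exact hkU m (by simp only at h1 ⊢; omega) h2)]
      have h : ∃ q, T.res n q = x.1 n ∧ T.Ext ⟨n + 1, q⟩ ⟨k, x.1 k⟩ :=
        ⟨x.1 (n + 1), x.2 n, Ext.body x hk⟩
      have hq : h.choose = x.1 (n + 1) := Ext.unique h.choose_spec.2 (Ext.body x hk)
      have key : ∀ (q : T.P (n + 1)) (hq' : T.res n q = x.1 n), q = x.1 (n + 1) →
          (f q hq').1 k (x.1 k) = (f (x.1 (n + 1)) (x.2 n)).1 k (x.1 k) := by
        intro q hq' e
        subst e
        rfl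
      simp only [s]
      rw [dif_pos h]
      exact key _ _ hq)
    simp only at hm
    refine ⟨m, by simp only; omega, hmU, fun j hj hj' => ?_⟩
    by_cases hjn : j = n
    · subst hjn; exact haS
    · exact hmS j (by simp only at hj ⊢; omega) hj'

/-- **Winning strategy of an open game.**  If `a` is forced then there is one strategy such that
every branch through `a` which follows it (as long as `U` is not reached) reaches `U`, and stays
in `S` until then. -/
theorem Force.exists_strat {e : Bool} {S U : Set T.Pos}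
    (hS : ∀ (n : ℕ) (q : T.P (n + 1)), Nat.bodd n = !e → (⟨n, T.res n q⟩ : T.Pos) ∈ S →
      (⟨n + 1, q⟩ : T.Pos) ∈ S)
    {a : T.Pos} (ha : Force e S U a) (haS : a ∈ S) :
    ∃ σ : T.Strat, ∀ x : T.Body, x.1 a.1 = a.2 →
      (∀ n, a.1 ≤ n → Nat.bodd n = e →
        (∀ m, a.1 ≤ m → m ≤ n → (⟨m, x.1 m⟩ : T.Pos) ∉ U) → x.1 (n + 1) = σ.1 n (x.1 n)) →
      ∃ m, a.1 ≤ m ∧ (⟨m, x.1 m⟩ : T.Pos) ∈ U ∧
        ∀ j, a.1 ≤ j → j ≤ m → (⟨j, x.1 j⟩ : T.Pos) ∈ S :=
  Force.exists_strat_aux hS ha haS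

end Pool.Agent.BorelDet
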