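import Pool.Agent.Lib.BorelDet.Unravel
import Pool.Agent.Lib.BorelDet.Force

/-!
# Borel determinacy, part 11: the theorem
-/

namespace Pool.Agent.BorelDet

universe u

open GTree

/-- Determinacy of a set of branches. -/
def Det {T : GTree.{u}} (X : Set T.Body) : Prop :=
  (∃ σ : T.Strat, ∀ x : T.Body, Cons false σ x → x ∈ X) ∨
    (∃ τ : T.Strat, ∀ x : T.Body, Cons true τ x → x ∉ X)

theorem det_of_levelDet {T : GTree.{u}} (h0 : Nonempty (T.P 0)) (h1 : Subsingleton (T.P 0))
    {X : Set T.Body} (hX : LevelDet X) : Det X := by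
  classical
  obtain ⟨N, hN⟩ := hX
  obtain ⟨r⟩ := h0
  let U : Set T.Pos := {a | ∃ x ∈ X, a = ⟨N, x.1 N⟩}
  have hU : ∀ (x : T.Body) (m : ℕ), (⟨m, x.1 m⟩ : T.Pos) ∈ U → x ∈ X := by
    rintro x m ⟨y, hy, hxy⟩
    obtain ⟨rfl, h⟩ := Sigma.mk.inj hxy
    exact hN y x (eq_of_heq h).symm hy
  by_cases hF : Force false Set.univ U (⟨0, r⟩ : T.Pos)
  · left
    obtain ⟨σ, hσ⟩ := hF.exists_strat (fun _ _ _ _ => Set.mem_univ _) (Set.mem_univ _)
    refine ⟨σ, fun x hx => ?_⟩
    obtain ⟨m, _, hm, _⟩ := hσ x (Subsingleton.elim _ _) (fun n _ hn _ => hx n hn)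
    exact hU x m hm
  · right
    obtain ⟨τ, hτ⟩ := exists_avoid (T := T) false Set.univ U
    refine ⟨τ, fun x hx hxX => ?_⟩
    have key : ∀ m, ¬ Force false Set.univ U (⟨m, x.1 m⟩ : T.Pos) := by
      intro m
      induction m with
      | zero =>
        have : x.1 0 = r := Subsingleton.elim _ _
        rw [this]; exact hF
      | succ m ih =>
        cases hb : Nat.bodd m with
        | false => exact not_force_mine hb ih (x.2 m) (Set.mem_univ _)
        | true =>
          rw [hx m hb]
          exact hτ m (x.1 m) (by simpa using hb) ih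
    exact not_force_notMem (key N) ⟨x, hxX, rfl⟩

theorem Det.of_cov {T T' : GTree.{u}} (c : Cov T' T) {X : Set T.Body} (h : Det (c.map ⁻¹' X)) :
    Det X := by
  rcases h with ⟨σ, hσ⟩ | ⟨τ, hτ⟩
  · refine Or.inl ⟨c.φ false σ, fun x hx => ?_⟩
    obtain ⟨x', hx', hxx'⟩ := c.lift false σ x hx
    have := hσ x' hx'
    rwa [Set.mem_preimage, (c.map_eq_iff x' x).2 hxx'] at this
  · refine Or.inr ⟨c.φ true τ, fun x hx => ?_⟩
    obtain ⟨x', hx', hxx'⟩ := c.lift true τ x hx
    have := hτ x' hx'
    rwa [Set.mem_preimage, (c.map_eq_iff x' x).2 hxx'] at this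

/-- **Borel determinacy** for trees. -/
theorem det_of_measurable {T : GTree.{u}} (h0 : Nonempty (T.P 0)) (h1 : Subsingleton (T.P 0))
    {X : Set T.Body} (hX : @MeasurableSet T.Body (borelB T) X) : Det X := by
  obtain ⟨T'', d, hd, hdX⟩ := hUnr_of_measurable hX T (Cov.refl T) 0
  have hb := hd.bij 0 le_rfl
  refine Det.of_cov (d.comp (Cov.refl T)) (det_of_levelDet ?_ ?_ hdX)
  · obtain ⟨r⟩ := h0
    obtain ⟨r', _⟩ := hb.2 r
    exact ⟨r'⟩
  · exact ⟨fun a b => hb.1 (Subsingleton.elim _ _)⟩

/-- The first `n` values of a sequence. -/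
def prefixList {X : Type u} (x : ℕ → X) (n : ℕ) : List X := List.ofFn (fun i : Fin n => x i)

/-- The tree of all finite sequences in `X`. -/
def seqTree (X : Type u) [Nonempty X] : GTree.{u} where
  P := fun n => Fin n → X
  res := fun _ p i => p i.castSucc
  surj := fun n p => ⟨Fin.snoc (α := fun _ => X) p (Classical.arbitrary X), by
    funext i
    exact Fin.snoc_castSucc (α := fun _ => X) _ _ i⟩

/-- The branch given by a sequence. -/
def toBody {X : Type u} [Nonempty X] (x : ℕ → X) : (seqTree X).Body :=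
  ⟨fun _ i => x i, fun _ => rfl⟩

/-- The sequence given by a branch. -/
def fromBody {X : Type u} [Nonempty X] (y : (seqTree X).Body) : ℕ → X :=
  fun i => y.1 (i + 1) (Fin.last i)

theorem fromBody_toBody {X : Type u} [Nonempty X] (x : ℕ → X) : fromBody (toBody x) = x := rfl

theorem measurable_fromBody {X : Type u} [Nonempty X] :
    @Measurable (seqTree X).Body (ℕ → X) (borelB (seqTree X))
      (@MeasurableSpace.pi ℕ (fun _ => X) (fun _ => ⊤)) fromBody := by
  let _ : MeasurableSpace X := ⊤
  let _ : MeasurableSpace (seqTree X).Body := borelB (seqTree X)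
  refine measurable_pi_iff.2 fun i => ?_
  intro s _
  apply MeasurableSpace.measurableSet_generateFrom
  refine ⟨i + 1, fun x y hxy hx => ?_⟩
  show y.1 (i + 1) (Fin.last i) ∈ s
  rw [← hxy]
  exact hx

/-- The value of a strategy on the tree of finite sequences, as a function of lists. -/
def stratFun {X : Type u} [Nonempty X] (σ : (seqTree X).Strat) (l : List X) : X :=
  σ.1 l.length (fun i => l.get i) (Fin.last l.length)

theorem stratFun_prefixList {X : Type u} [Nonempty X] (σ : (seqTree X).Strat) (x : ℕ → X)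
    (n : ℕ) : stratFun σ (prefixList x n) = σ.1 n (fun i => x i) (Fin.last n) := by
  have h := (List.equivSigmaTuple (α := X)).right_inv ⟨n, fun i : Fin n => x i⟩
  exact congrArg (fun s : (Σ m, Fin m → X) => σ.1 s.1 s.2 (Fin.last s.1)) h

theorem toBody_succ {X : Type u} [Nonempty X] (σ : (seqTree X).Strat) (x : ℕ → X) (n : ℕ)
    (h : x n = stratFun σ (prefixList x n)) :
    (toBody x).1 (n + 1) = σ.1 n ((toBody x).1 n) := by
  rw [stratFun_prefixList] at h
  funext i
  refine Fin.lastCases ?_ (fun j => ?_) i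
  · exact h
  · exact (congrFun (σ.2 n (fun i : Fin n => x i)) j).symm

/-- **Borel determinacy** (Martin 1975) for games with moves in an arbitrary type `X` and payoff
set in the product sigma-algebra, all subsets of `X` being measurable. -/
theorem borel_determinacy {X : Type u} [Nonempty X] {A : Set (ℕ → X)}
    (hA : @MeasurableSet (ℕ → X) (@MeasurableSpace.pi ℕ (fun _ => X) (fun _ => ⊤)) A) :
    (∃ σ : List X → X, ∀ x : ℕ → X, (∀ n, x (2 * n) = σ (prefixList x (2 * n))) → x ∈ A) ∨
    (∃ τ : List X → X, ∀ x : ℕ → X,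
      (∀ n, x (2 * n + 1) = τ (prefixList x (2 * n + 1))) → x ∉ A) := by
  have hm : @MeasurableSet _ (borelB (seqTree X)) (fromBody ⁻¹' A) := measurable_fromBody hA
  have h0 : Nonempty ((seqTree X).P 0) := ⟨fun i => i.elim0⟩
  have h1 : Subsingleton ((seqTree X).P 0) := ⟨fun a b => funext fun i => i.elim0⟩
  rcases det_of_measurable h0 h1 hm with ⟨σ, hσ⟩ | ⟨τ, hτ⟩
  · refine Or.inl ⟨stratFun σ, fun x hx => hσ (toBody x) fun n hn => ?_⟩
    have h2 : n = 2 * n.div2 := by
      have := Nat.bodd_add_div2 n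
      rw [hn] at this
      simpa using this.symm
    apply toBody_succ
    rw [h2]
    exact hx _
  · refine Or.inr ⟨stratFun τ, fun x hx => hτ (toBody x) fun n hn => ?_⟩
    have h2 : n = 2 * n.div2 + 1 := by
      have := Nat.bodd_add_div2 n
      rw [hn] at this
      simp only [Bool.toNat_true] at this
      omega
    apply toBody_succ
    rw [h2]
    exact hx _

end Pool.Agent.BorelDet
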