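import Pool.Agent.Lib.BorelDet.Basic

/-!
# Borel determinacy, part 9: inverse limits of coverings

`L.P n` is the set of all sequences `y i : (T i).P n` with `(c i).π n (y (i+1)) = y i`.
-/

namespace Pool.Agent.BorelDet

universe u

open GTree

namespace Limit

/-- Compatible sequences of positions exist above every position of a late tree. -/
private theorem exists_seq (i₀ : ℕ) : ∀ (T : ℕ → GTree.{u}) (c : ∀ i, Cov (T (i + 1)) (T i))
    (N : ℕ), (∀ i, (c i).Upto (N + i)) → ∀ n, n ≤ N + i₀ → ∀ a : (T i₀).P n,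
    ∃ y : ∀ i, (T i).P n, (∀ i, (c i).π n (y (i + 1)) = y i) ∧ y i₀ = a := by
  induction i₀ with
  | zero =>
    intro T c N h n hn a
    have hs : ∀ i, Function.Surjective ((c i).π n) := fun i =>
      ((h i).bij n (hn.trans (Nat.add_le_add_left (Nat.zero_le i) N))).2
    refine ⟨fun i => Nat.rec (motive := fun i => (T i).P n) a
      (fun i x => Classical.choose (hs i x)) i, fun i => ?_, rfl⟩
    exact Classical.choose_spec (hs i _)
  | succ i₀ ih =>
    intro T c N h n hn a
    obtain ⟨y, hy, hya⟩ := ih (fun i => T (i + 1)) (fun i => c (i + 1)) (N + 1)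
      (fun i => by
        have := h (i + 1)
        rwa [show N + (i + 1) = N + 1 + i by omega] at this) n (by omega) a
    refine ⟨fun i => Nat.casesOn (motive := fun i => (T i).P n) i ((c 0).π n (y 0))
      (fun i => y i), fun i => ?_, hya⟩
    cases i with
    | zero => rfl
    | succ i => exact hy i

variable {T : ℕ → GTree.{u}} {c : ∀ i, Cov (T (i + 1)) (T i)} {N : ℕ}

private theorem seq_eq (h : ∀ i, (c i).Upto (N + i)) {n i₀ : ℕ} (hn : n ≤ N + i₀)
    {y z : ∀ i, (T i).P n} (hy : ∀ i, (c i).π n (y (i + 1)) = y i)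
    (hz : ∀ i, (c i).π n (z (i + 1)) = z i) (h0 : y i₀ = z i₀) : y = z := by
  have hup : ∀ j, i₀ ≤ j → y j = z j := by
    intro j hj
    induction j, hj using Nat.le_induction with
    | base => exact h0
    | succ j hj ih =>
      apply ((h j).bij n (by omega)).1
      rw [hy, hz, ih]
  have hdn : ∀ k j, j + k = i₀ → y j = z j := by
    intro k
    induction k with
    | zero => intro j hj; exact hup j (by omega)
    | succ k ih =>
      intro j hj
      rw [← hy, ← hz, ih (j + 1) (by omega)]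
  funext j
  rcases le_total i₀ j with hj | hj
  · exact hup j hj
  · exact hdn (i₀ - j) j (by omega)

variable (c) in
/-- The levels of the limit tree. -/
private def LP (n : ℕ) : Type u := {y : ∀ i, (T i).P n // ∀ i, (c i).π n (y (i + 1)) = y i}

private theorem lp_surj (h : ∀ i, (c i).Upto (N + i)) {n i₀ : ℕ} (hn : n ≤ N + i₀)
    (a : (T i₀).P n) : ∃ y : LP c n, y.1 i₀ = a := by
  obtain ⟨y, hy, ha⟩ := exists_seq i₀ T c N h n hn a
  exact ⟨⟨y, hy⟩, ha⟩

private theorem lp_inj (h : ∀ i, (c i).Upto (N + i)) {n i₀ : ℕ} (hn : n ≤ N + i₀)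
    {y z : LP c n} (h0 : y.1 i₀ = z.1 i₀) : y = z :=
  Subtype.ext (seq_eq h hn y.2 z.2 h0)

/-- The limit tree. -/
private def LT (h : ∀ i, (c i).Upto (N + i)) : GTree.{u} where
  P := LP c
  res := fun n y => ⟨fun i => (T i).res n (y.1 i), fun i => by
    rw [← (c i).comm, y.2]⟩
  surj := fun n y => by
    obtain ⟨a, ha⟩ := (T (n + 1)).surj n (y.1 (n + 1))
    obtain ⟨z, hz⟩ := lp_surj h (show n + 1 ≤ N + (n + 1) by omega) a
    refine ⟨z, lp_inj h (i₀ := n + 1) (show n ≤ N + (n + 1) by omega) ?_⟩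
    show (T (n + 1)).res n (z.1 (n + 1)) = y.1 (n + 1)
    rw [hz, ha]

/-- A map between two levels of the limit, seen in `T i` (below the level `N + i`). -/
private noncomputable def tf (h : ∀ i, (c i).Upto (N + i)) {n : ℕ} (s : LP c n → LP c (n + 1))
    (i : ℕ) (p : (T i).P n) : (T i).P (n + 1) :=
  if hn : n < N + i then (s (Classical.choose (lp_surj h hn.le p))).1 i
  else (T i).someStrat.1 n p

private theorem tf_apply (h : ∀ i, (c i).Upto (N + i)) {n : ℕ} (s : LP c n → LP c (n + 1))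
    {i : ℕ} (hn : n < N + i) (y : LP c n) : tf h s i (y.1 i) = (s y).1 i := by
  have h1 : Classical.choose (lp_surj h hn.le (y.1 i)) = y :=
    lp_inj h hn.le (Classical.choose_spec (lp_surj h hn.le (y.1 i)))
  unfold tf
  rw [dif_pos hn, h1]

private theorem tf_res (h : ∀ i, (c i).Upto (N + i)) {n : ℕ} (s : LP c n → LP c (n + 1))
    (hs : ∀ y i, (T i).res n ((s y).1 i) = y.1 i) (i : ℕ) (p : (T i).P n) :
    (T i).res n (tf h s i p) = p := by
  by_cases hn : n < N + i
  · obtain ⟨y, rfl⟩ := lp_surj h hn.le p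
    rw [tf_apply h s hn y, hs]
  · unfold tf
    rw [dif_neg hn]
    exact (T i).someStrat.2 n p

private theorem strat_res (h : ∀ i, (c i).Upto (N + i)) (σ : (LT h).Strat) (n : ℕ)
    (y : LP c n) (i : ℕ) : (T i).res n ((σ.1 n y : LP c (n + 1)).1 i) = y.1 i := by
  have h1 : (LT h).res n (σ.1 n y) = y := σ.2 n y
  exact congrArg (fun z : LP c n => z.1 i) h1

/-- The strategy `σ` of the limit tree, seen in `T i` (below the level `N + i`). -/
private noncomputable def tau (h : ∀ i, (c i).Upto (N + i)) (σ : (LT h).Strat) (i : ℕ) :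
    (T i).Strat :=
  ⟨fun n p => tf h (σ.1 n) i p, fun n p => tf_res h (σ.1 n) (strat_res h σ n) i p⟩

private theorem tau_apply (h : ∀ i, (c i).Upto (N + i)) (σ : (LT h).Strat) {i n : ℕ}
    (hn : n < N + i) (y : LP c n) : (tau h σ i).1 n (y.1 i) = (σ.1 n y : LP c (n + 1)).1 i :=
  tf_apply h (σ.1 n) hn y

private theorem tau_congr (h : ∀ i, (c i).Upto (N + i)) {σ σ' : (LT h).Strat} {n : ℕ}
    (hσ : σ.1 n = σ'.1 n) (i : ℕ) : (tau h σ i).1 n = (tau h σ' i).1 n := by
  funext p
  exact congrArg (fun s : LP c n → LP c (n + 1) => tf h s i p) hσ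

private theorem tau_step (h : ∀ i, (c i).Upto (N + i)) (σ : (LT h).Strat) (e : Bool) {i n : ℕ}
    (hn : n < N + i) (he : Nat.bodd n = e) :
    (tau h σ i).1 n = ((c i).φ e (tau h σ (i + 1))).1 n := by
  funext p
  obtain ⟨y, rfl⟩ := lp_surj h hn.le p
  rw [tau_apply h σ hn y]
  have h1 := (h i).compat e (tau h σ (i + 1)) n hn he (y.1 (i + 1))
  rw [y.2 i] at h1
  rw [h1, tau_apply h σ (by omega) y]
  exact ((σ.1 n y : LP c (n + 1)).2 i).symm

/-- The transformation of the strategy, `k` steps. -/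
private noncomputable def A (h : ∀ i, (c i).Upto (N + i)) (e : Bool) (σ : (LT h).Strat) :
    ∀ (_k i : ℕ), (T i).Strat
  | 0, i => tau h σ i
  | k + 1, i => (c i).φ e (A h e σ k (i + 1))

private theorem A_step (h : ∀ i, (c i).Upto (N + i)) (e : Bool) (σ : (LT h).Strat) (k : ℕ) :
    ∀ i n, n < N + i + k → Nat.bodd n = e → (A h e σ k i).1 n = (A h e σ (k + 1) i).1 n := by
  induction k with
  | zero => intro i n hn he; exact tau_step h σ e hn he
  | succ k ih =>
    intro i n hn he
    exact (c i).loc e _ _ n he (fun m hm hme => ih (i + 1) m (by omega) hme)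

private theorem A_mono (h : ∀ i, (c i).Upto (N + i)) (e : Bool) (σ : (LT h).Strat) {i n k : ℕ}
    (hn : n < N + i + k) (he : Nat.bodd n = e) {l : ℕ} (hl : k ≤ l) :
    (A h e σ k i).1 n = (A h e σ l i).1 n := by
  induction l, hl using Nat.le_induction with
  | base => rfl
  | succ l hl ih => rw [ih]; exact A_step h e σ l i n (by omega) he

private theorem A_congr (h : ∀ i, (c i).Upto (N + i)) (e : Bool) {σ σ' : (LT h).Strat} {n : ℕ}
    (hσ : ∀ m, m ≤ n → Nat.bodd m = e → σ.1 m = σ'.1 m) (k : ℕ) :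
    ∀ i m, m ≤ n → Nat.bodd m = e → (A h e σ k i).1 m = (A h e σ' k i).1 m := by
  induction k with
  | zero => intro i m hm hme; exact tau_congr h (hσ m hm hme) i
  | succ k ih =>
    intro i m hm hme
    exact (c i).loc e _ _ m hme (fun l hl hle => ih (i + 1) l (hl.trans hm) hle)

/-- The limit of the transformations. -/
private noncomputable def S (h : ∀ i, (c i).Upto (N + i)) (e : Bool) (σ : (LT h).Strat) (i : ℕ) :
    (T i).Strat :=
  ⟨fun n => (A h e σ (n + 1) i).1 n, fun n p => (A h e σ (n + 1) i).2 n p⟩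

private theorem S_eq (h : ∀ i, (c i).Upto (N + i)) (e : Bool) (σ : (LT h).Strat) {i n k : ℕ}
    (hn : n < N + i + k) (he : Nat.bodd n = e) : (S h e σ i).1 n = (A h e σ k i).1 n := by
  show (A h e σ (n + 1) i).1 n = (A h e σ k i).1 n
  rw [A_mono h e σ (by omega) he (le_max_left (n + 1) k),
    A_mono h e σ hn he (le_max_right (n + 1) k)]

private theorem S_step (h : ∀ i, (c i).Upto (N + i)) (e : Bool) (σ : (LT h).Strat) {i n : ℕ}
    (he : Nat.bodd n = e) : (S h e σ i).1 n = ((c i).φ e (S h e σ (i + 1))).1 n := by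
  rw [S_eq h e σ (show n < N + i + (n + 2) by omega) he]
  show ((c i).φ e (A h e σ (n + 1) (i + 1))).1 n = _
  exact (c i).loc e _ _ n he
    (fun m hm hme => (S_eq h e σ (show m < N + (i + 1) + (n + 1) by omega) hme).symm)

private theorem lift (h : ∀ i, (c i).Upto (N + i)) (e : Bool) (σ : (LT h).Strat)
    (x : (T 0).Body) (hx : Cons e (S h e σ 0) x) :
    ∃ x' : (LT h).Body, Cons e σ x' ∧ ∀ n, (x'.1 n : LP c n).1 0 = x.1 n := by
  have step : ∀ i (z : {z : (T i).Body // Cons e (S h e σ i) z}),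
      ∃ w : {w : (T (i + 1)).Body // Cons e (S h e σ (i + 1)) w},
        ∀ n, (c i).π n (w.1.1 n) = z.1.1 n := by
    intro i z
    obtain ⟨w, hw, hwz⟩ := (c i).lift e (S h e σ (i + 1)) z.1 (fun n he => by
      rw [z.2 n he, S_step h e σ he])
    exact ⟨⟨w, hw⟩, hwz⟩
  choose f hf using step
  let X : ∀ i, {z : (T i).Body // Cons e (S h e σ i) z} := fun i =>
    Nat.rec (motive := fun i => {z : (T i).Body // Cons e (S h e σ i) z}) ⟨x, hx⟩ f i
  have hX : ∀ i n, (c i).π n ((X (i + 1)).1.1 n) = (X i).1.1 n := fun i n => hf i (X i) n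
  let Y : ∀ n, LP c n := fun n => ⟨fun i => (X i).1.1 n, fun i => hX i n⟩
  refine ⟨⟨Y, fun n => Subtype.ext (funext fun i => (X i).1.2 n)⟩, ?_, fun n => rfl⟩
  intro n he
  show Y (n + 1) = σ.1 n (Y n)
  refine lp_inj h (i₀ := n + 1) (by omega) ?_
  have h1 : (X (n + 1)).1.1 (n + 1) = (S h e σ (n + 1)).1 n ((X (n + 1)).1.1 n) :=
    (X (n + 1)).2 n he
  rw [S_eq h e σ (k := 0) (by omega) he] at h1
  have h2 := tau_apply h σ (show n < N + (n + 1) by omega) (Y n)
  exact h1.trans h2

end Limit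

open Limit in
theorem exists_limit (T : ℕ → GTree.{u}) (c : ∀ i, Cov (T (i + 1)) (T i)) (N : ℕ)
    (h : ∀ i, (c i).Upto (N + i)) :
    ∃ (L : GTree.{u}) (d : Cov L (T 0)) (r : ∀ i n, L.P n → (T i).P n),
      d.Upto N ∧ (∀ n p, r 0 n p = d.π n p) ∧
      (∀ i n p, (T i).res n (r i (n + 1) p) = r i n (L.res n p)) ∧
      (∀ i n p, (c i).π n (r (i + 1) n p) = r i n p) := by
  refine ⟨LT h, {
      π := fun n y => (y : LP c n).1 0
      comm := fun n p => rfl
      φ := fun e σ => S h e σ 0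
      loc := fun e σ σ' n he hσ => A_congr h e hσ (n + 1) 0 n le_rfl he
      lift := fun e σ x hx => Limit.lift h e σ x hx },
    fun i n y => (y : LP c n).1 i, ⟨?_, ?_⟩, fun _ _ => rfl, fun _ _ _ => rfl, ?_⟩
  · intro n hn
    refine ⟨fun y z hyz => lp_inj h (i₀ := 0) hn hyz, fun a => ?_⟩
    exact lp_surj h (i₀ := 0) hn a
  · intro e σ n hn he p
    show (S h e σ 0).1 n ((p : LP c n).1 0) = (σ.1 n p : LP c (n + 1)).1 0
    rw [S_eq h e σ (k := 0) (by omega) he]
    exact tau_apply h σ (show n < N + 0 by omega) p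
  · intro i n p
    exact (p : LP c n).2 i

end Pool.Agent.BorelDet
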