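import Pool.Agent.Lib.BorelDet.Final

/-!
# Borel determinacy, part 12: Borel sets of sequences in a discrete space

Every open set of `ℕ → A` (with `A` discrete) is a countable union of sets which are determined
at one level, so the Borel sets of `ℕ → A` are in the sigma-algebra `borelB` of the tree of all
finite sequences.
-/

namespace Pool.Agent.BorelDet

universe u

open GTree

namespace Main

variable {A : Type u}

theorem prefixList_eq_map (x : ℕ → A) (n : ℕ) : prefixList x n = (List.range n).map x := by
  apply List.ext_getElem
  · simp [prefixList]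
  · intro i h1 h2
    simp [prefixList]

/-- The branch determines the sequence: values of a branch of the tree of finite sequences. -/
theorem body_apply [Nonempty A] (y : (seqTree A).Body) (n : ℕ) (i : Fin n) :
    y.1 n i = fromBody y i := by
  induction n with
  | zero => exact i.elim0
  | succ n ih =>
    refine Fin.lastCases ?_ (fun j => ?_) i
    · rfl
    · have h : y.1 (n + 1) j.castSucc = y.1 n j := congrFun (y.2 n) j
      rw [h, ih j]
      rfl

theorem toBody_fromBody [Nonempty A] (y : (seqTree A).Body) : toBody (fromBody y) = y := by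
  apply Subtype.ext
  funext n i
  exact (body_apply y n i).symm

/-- An open set of sequences contains the cylinder of some level around each of its points. -/
theorem exists_cylinder [TopologicalSpace A] [DiscreteTopology A] {U : Set (ℕ → A)}
    (hU : IsOpen U) {x : ℕ → A} (hx : x ∈ U) :
    ∃ n, ∀ y : ℕ → A, (∀ i, i < n → y i = x i) → y ∈ U := by
  obtain ⟨I, u, hu, hIU⟩ := isOpen_pi_iff.1 hU x hx
  refine ⟨I.sup id + 1, fun y hy => hIU ?_⟩
  intro i hi
  have : i < I.sup id + 1 := Nat.lt_succ_of_le (Finset.le_sup (f := id) hi)
  rw [hy i this]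
  exact (hu i hi).2

theorem measurable_fromBody_borel [Nonempty A] [TopologicalSpace A] [DiscreteTopology A] :
    @Measurable (seqTree A).Body (ℕ → A) (borelB (seqTree A)) (borel (ℕ → A)) fromBody := by
  let _ : MeasurableSpace (seqTree A).Body := borelB (seqTree A)
  refine measurable_generateFrom fun U hU => ?_
  have hU' : IsOpen U := hU
  have h : (fromBody ⁻¹' U : Set (seqTree A).Body) =
      ⋃ n : ℕ, {y : (seqTree A).Body | ∀ z : (seqTree A).Body, z.1 n = y.1 n →
        fromBody z ∈ U} := by
    ext y
    constructor
    · intro hy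
      obtain ⟨n, hn⟩ := exists_cylinder hU' hy
      refine Set.mem_iUnion.2 ⟨n, fun z hz => hn _ fun i hi => ?_⟩
      rw [← body_apply z n ⟨i, hi⟩, ← body_apply y n ⟨i, hi⟩, hz]
    · intro hy
      obtain ⟨n, hn⟩ := Set.mem_iUnion.1 hy
      exact hn y rfl
  rw [h]
  refine MeasurableSet.iUnion fun n => ?_
  apply MeasurableSpace.measurableSet_generateFrom
  exact ⟨n, fun x y hxy hx z hz => hx z (hz.trans hxy.symm)⟩

/-- **Borel determinacy** (Martin 1975): a Gale-Stewart game with moves in an arbitrary nonempty
discrete space `A` and Borel payoff set is determined.  The first player makes the moves with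
even index and wants the play to be in `S`. -/
theorem borel_determinacy [Nonempty A] [TopologicalSpace A] [DiscreteTopology A]
    (S : Set (ℕ → A)) (hS : @MeasurableSet _ (borel (ℕ → A)) S) :
    (∃ σ : List A → A, ∀ x : ℕ → A,
      (∀ k, x (2 * k) = σ ((List.range (2 * k)).map x)) → x ∈ S) ∨
    (∃ τ : List A → A, ∀ x : ℕ → A,
      (∀ k, x (2 * k + 1) = τ ((List.range (2 * k + 1)).map x)) → x ∉ S) := by
  have hm : @MeasurableSet _ (borelB (seqTree A)) (fromBody ⁻¹' S) := measurable_fromBody_borel hS
  have h0 : Nonempty ((seqTree A).P 0) := ⟨fun i => i.elim0⟩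
  have h1 : Subsingleton ((seqTree A).P 0) := ⟨fun a b => funext fun i => i.elim0⟩
  rcases det_of_measurable h0 h1 hm with ⟨σ, hσ⟩ | ⟨τ, hτ⟩
  · refine Or.inl ⟨stratFun σ, fun x hx => hσ (toBody x) fun n hn => ?_⟩
    have h2 : n = 2 * n.div2 := by
      have := Nat.bodd_add_div2 n
      rw [hn] at this
      simpa using this.symm
    apply toBody_succ
    rw [h2, prefixList_eq_map]
    exact hx _
  · refine Or.inr ⟨stratFun τ, fun x hx => hτ (toBody x) fun n hn => ?_⟩
    have h2 : n = 2 * n.div2 + 1 := by
      have := Nat.bodd_add_div2 n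
      rw [hn] at this
      simp only [Bool.toNat_true] at this
      omega
    apply toBody_succ
    rw [h2, prefixList_eq_map]
    exact hx _

end Main

end Pool.Agent.BorelDet
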