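import Pool.Agent.Lib.BorelDet.ClosedTree

/-!
# Borel determinacy, part 5: transformation of the strategies of the first player

Let `σ'` be a strategy of the first player in `closedTree T D hD`.  The strategy `φ σ'` in `T`:
at level 0 it plays the move of `σ'`, let `(q, S)` be that move.  At an even level `n ≥ 2`, at
a position `r` above `q`, with ancestor `r2` at level 2, let
`U = {u ∈ S | u ∈ D, level of u even and ≥ 2}` and `F = Force false S U`.
* If some ancestor of `r` is in `U`, let `u` be the first one: play the move of `σ'` at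
  `(r, S, inl u)`.
* Otherwise, if some ancestor of level `≥ 2` of `r` is in `F`, let `a` be the first one: play a
  strategy `σ_a` which forces `U` from `a` (`Force.exists_strat`).
* Otherwise let `S' = {s ∈ S | 2 ≤ level s, no ancestor of level ≥ 2 of s is in F}`, which
  satisfies `QO D S S'`: play the move of `σ'` at `(r, S, inr S')`.
-/

namespace Pool.Agent.BorelDet

universe u

open GTree

variable {T : GTree.{u}}

/-- Dead positions of even level in `S`. -/
def UE (D S : Set T.Pos) : Set T.Pos :=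
  {u | u ∈ S ∧ u ∈ D ∧ Nat.bodd u.1 = false ∧ 2 ≤ u.1}

/-- Positions of level at least two from which the first player can force a dead position. -/
def FE (D S : Set T.Pos) : Set T.Pos :=
  {a | a ∈ S ∧ 2 ≤ a.1 ∧ Force false S (UE D S) a}

/-- The quasi strategy of the second player. -/
def SE (D S : Set T.Pos) : Set T.Pos :=
  {s | s ∈ S ∧ 2 ≤ s.1 ∧ ∀ a, T.Ext a s → a ∉ FE D S}

theorem UE_sub_FE {D S : Set T.Pos} : UE D S ⊆ FE D S :=
  fun u hu => ⟨hu.1, hu.2.2.2, .here u hu⟩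

theorem notForce_of_SE {D S : Set T.Pos} {a : T.Pos} (h : a ∈ SE D S) :
    ¬ Force false S (UE D S) a :=
  fun h' => h.2.2 a (.refl a) ⟨h.1, h.2.1, h'⟩

theorem SE_succ {D S : Set T.Pos} {n : ℕ} {r : T.P (n + 1)}
    (h : (⟨n, T.res n r⟩ : T.Pos) ∈ SE D S) (hr : (⟨n + 1, r⟩ : T.Pos) ∈ S)
    (hF : ¬ Force false S (UE D S) ⟨n + 1, r⟩) : (⟨n + 1, r⟩ : T.Pos) ∈ SE D S := by
  refine ⟨hr, le_trans h.2.1 (Nat.le_succ n), fun a ha haF => ?_⟩
  rcases Nat.lt_or_ge n a.1 with hl | hl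
  · have : a = ⟨n + 1, r⟩ := ha.eq_of_level hl
    subst this
    exact hF haF.2.2
  · exact h.2.2 a (ha.of_succ hl) haF

theorem QO_SE {D : Set T.Pos}
    (hD : ∀ (n : ℕ) (q : T.P (n + 1)), (⟨n, T.res n q⟩ : T.Pos) ∈ D → (⟨n + 1, q⟩ : T.Pos) ∈ D)
    {q : T.P 1} {S : Set T.Pos} (hQ : QE q S) : QO D S (SE D S) where
  sub := fun a ha => ha.1
  dead := by
    intro a ha haD
    apply notForce_of_SE ha
    obtain ⟨n, p⟩ := a
    by_cases hn : Nat.bodd n = false
    · exact .here _ ⟨ha.1, haD, hn, ha.2.1⟩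
    · have hn' : Nat.bodd n = true := by simpa using hn
      refine .theirs p hn' (fun r hr => ?_)
      subst hr
      refine .here _ ⟨hQ.theirs n r hn' ha.1, hD n r haD, ?_, ?_⟩
      · simp [hn']
      · exact le_trans ha.2.1 (Nat.le_succ n)
  down := by
    intro n r hn h
    exact ⟨hQ.down n r (by omega) h.1, hn, fun a ha => h.2.2 a (.step r ha)⟩
  theirs := by
    intro n r hn h hr
    exact SE_succ h hr (not_force_mine hn (notForce_of_SE h) rfl hr)
  mine := by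
    intro n p hn h
    obtain ⟨r, hr, hr'⟩ := not_force_theirs (e := false) hn (notForce_of_SE h)
    subst hr
    exact ⟨r, rfl, SE_succ h (hQ.theirs n r hn h.1) hr'⟩

/-- The property of a strategy forcing `UE D S` from `a`. -/
def WinE (D S : Set T.Pos) (a : T.Pos) (σ : T.Strat) : Prop :=
  ∀ x : T.Body, x.1 a.1 = a.2 →
      (∀ n, a.1 ≤ n → Nat.bodd n = false →
        (∀ m, a.1 ≤ m → m ≤ n → (⟨m, x.1 m⟩ : T.Pos) ∉ UE D S) → x.1 (n + 1) = σ.1 n (x.1 n)) →
      ∃ m, a.1 ≤ m ∧ (⟨m, x.1 m⟩ : T.Pos) ∈ UE D S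

open Classical in
/-- A strategy forcing `UE D S` from `a`, if there is one. -/
noncomputable def sE (D S : Set T.Pos) (a : T.Pos) : T.Strat :=
  if h : ∃ σ, WinE D S a σ then h.choose else T.someStrat

theorem sE_spec {D S : Set T.Pos} {q : T.P 1} (hQ : QE q S) {a : T.Pos} (ha : a ∈ FE D S) :
    WinE D S a (sE D S a) := by
  have h : ∃ σ, WinE D S a σ := by
    obtain ⟨σ, hσ⟩ := Force.exists_strat (e := false) (S := S) (U := UE D S)
      (fun n q hn h => hQ.theirs n q hn h) ha.2.2 ha.1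
    refine ⟨σ, fun x hx hc => ?_⟩
    obtain ⟨m, hm, hm', _⟩ := hσ x hx hc
    exact ⟨m, hm, hm'⟩
  unfold sE
  rw [dif_pos h]
  exact h.choose_spec

/-- The ancestor at level zero. -/
noncomputable def anc0 (a : T.Pos) : T.P 0 :=
  (Ext.exists_ancestor a 0 (Nat.zero_le _)).choose

theorem anc0_ext (a : T.Pos) : T.Ext ⟨0, anc0 a⟩ a :=
  (Ext.exists_ancestor a 0 (Nat.zero_le _)).choose_spec

theorem anc0_body (x : T.Body) (n : ℕ) : anc0 (⟨n, x.1 n⟩ : T.Pos) = x.1 0 :=
  (Ext.of_body (anc0_ext (⟨n, x.1 n⟩ : T.Pos))).symm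

open Classical in
/-- The moves of the transformed strategy. -/
noncomputable def GE (T : GTree.{u}) (D : Set T.Pos) :
    ∀ n, (CLevel T D 0 → CLevel T D 1) → (CLevel T D n → CLevel T D (n + 1)) →
      T.P n → T.P (n + 1)
  | 0, _, f, r => (f r).1.1
  | 1, _, _, r => T.someStrat.1 1 r
  | k + 2, f0, f, r =>
    if h1 : ∃ u, First (UE D (f0 (anc0 ⟨k + 2, r⟩)).1.2) u ⟨k + 2, r⟩ ∧
        Valid D k (r, (f0 (anc0 ⟨k + 2, r⟩)).1.2, .inl u) then
      (f ⟨(r, (f0 (anc0 ⟨k + 2, r⟩)).1.2, .inl h1.choose), h1.choose_spec.2⟩).1.1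
    else if h2 : ∃ a, First (FE D (f0 (anc0 ⟨k + 2, r⟩)).1.2) a ⟨k + 2, r⟩ then
      (sE D (f0 (anc0 ⟨k + 2, r⟩)).1.2 h2.choose).1 (k + 2) r
    else if h3 : Valid D k (r, (f0 (anc0 ⟨k + 2, r⟩)).1.2,
        .inr (SE D (f0 (anc0 ⟨k + 2, r⟩)).1.2)) then
      (f ⟨(r, (f0 (anc0 ⟨k + 2, r⟩)).1.2, .inr (SE D (f0 (anc0 ⟨k + 2, r⟩)).1.2)), h3⟩).1.1
    else T.someStrat.1 (k + 2) r

theorem GE_res (D : Set T.Pos) : ∀ (n : ℕ) (f0 : CLevel T D 0 → CLevel T D 1)
    (f : CLevel T D n → CLevel T D (n + 1)) (_ : ∀ y, cres T D n (f y) = y) (r : T.P n),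
    T.res n (GE T D n f0 f r) = r
  | 0, _, f, hf, r => hf r
  | 1, _, _, _, r => T.someStrat.2 1 r
  | k + 2, f0, f, hf, r => by
    have key : ∀ y : CLevel T D (k + 2), T.res (k + 2) (f y).1.1 = y.1.1 := fun y => by
      have := congrArg (fun z : CLevel T D (k + 2) => z.1.1) (hf y)
      exact this
    rw [GE]
    split_ifs with h1 h2 h3
    · exact key _
    · exact (sE D _ _).2 _ _
    · exact key _
    · exact T.someStrat.2 _ _

theorem GE_rule1 {D : Set T.Pos} {k : ℕ} {f0 : CLevel T D 0 → CLevel T D 1}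
    {f : CLevel T D (k + 2) → CLevel T D (k + 3)} {r : T.P (k + 2)} {S : Set T.Pos}
    (hS : (f0 (anc0 ⟨k + 2, r⟩)).1.2 = S) {v : T.Pos} (hu : First (UE D S) v ⟨k + 2, r⟩)
    (hv : Valid D k (r, S, .inl v)) : GE T D (k + 2) f0 f r = (f ⟨(r, S, .inl v), hv⟩).1.1 := by
  subst hS
  have h1 : ∃ u, First (UE D (f0 (anc0 ⟨k + 2, r⟩)).1.2) u ⟨k + 2, r⟩ ∧
        Valid D k (r, (f0 (anc0 ⟨k + 2, r⟩)).1.2, .inl u) := ⟨v, hu, hv⟩
  rw [GE, dif_pos h1]
  have : h1.choose = v := h1.choose_spec.1.unique hu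
  congr 4
  · rw [this]

theorem GE_rule2 {D : Set T.Pos} {k : ℕ} {f0 : CLevel T D 0 → CLevel T D 1}
    {f : CLevel T D (k + 2) → CLevel T D (k + 3)} {r : T.P (k + 2)} {S : Set T.Pos}
    (hS : (f0 (anc0 ⟨k + 2, r⟩)).1.2 = S) (hu : ∀ v, ¬ First (UE D S) v ⟨k + 2, r⟩)
    {a : T.Pos} (ha : First (FE D S) a ⟨k + 2, r⟩) :
    GE T D (k + 2) f0 f r = (sE D S a).1 (k + 2) r := by
  subst hS
  have h1 : ¬ ∃ u, First (UE D (f0 (anc0 ⟨k + 2, r⟩)).1.2) u ⟨k + 2, r⟩ ∧
        Valid D k (r, (f0 (anc0 ⟨k + 2, r⟩)).1.2, .inl u) := by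
    rintro ⟨u, h, _⟩; exact hu u h
  have h2 : ∃ a, First (FE D (f0 (anc0 ⟨k + 2, r⟩)).1.2) a ⟨k + 2, r⟩ := ⟨a, ha⟩
  rw [GE, dif_neg h1, dif_pos h2, h2.choose_spec.unique ha]

theorem GE_rule3 {D : Set T.Pos} {k : ℕ} {f0 : CLevel T D 0 → CLevel T D 1}
    {f : CLevel T D (k + 2) → CLevel T D (k + 3)} {r : T.P (k + 2)} {S : Set T.Pos}
    (hS : (f0 (anc0 ⟨k + 2, r⟩)).1.2 = S) (hu : ∀ v, ¬ First (UE D S) v ⟨k + 2, r⟩)
    (ha : ∀ a, ¬ First (FE D S) a ⟨k + 2, r⟩) (hv : Valid D k (r, S, .inr (SE D S))) :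
    GE T D (k + 2) f0 f r = (f ⟨(r, S, .inr (SE D S)), hv⟩).1.1 := by
  subst hS
  have h1 : ¬ ∃ u, First (UE D (f0 (anc0 ⟨k + 2, r⟩)).1.2) u ⟨k + 2, r⟩ ∧
        Valid D k (r, (f0 (anc0 ⟨k + 2, r⟩)).1.2, .inl u) := by
    rintro ⟨u, h, _⟩; exact hu u h
  have h2 : ¬ ∃ a, First (FE D (f0 (anc0 ⟨k + 2, r⟩)).1.2) a ⟨k + 2, r⟩ := by
    rintro ⟨a, h⟩; exact ha a h
  rw [GE, dif_neg h1, dif_neg h2, dif_pos hv]

theorem exists_phiE (T : GTree.{u}) (D : Set T.Pos)
    (hD : ∀ (n : ℕ) (q : T.P (n + 1)), (⟨n, T.res n q⟩ : T.Pos) ∈ D →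
      (⟨n + 1, q⟩ : T.Pos) ∈ D) :
    ∃ φ : (closedTree T D hD).Strat → T.Strat,
      (∀ (σ σ' : (closedTree T D hD).Strat) (n : ℕ), Nat.bodd n = false →
        (∀ m, m ≤ n → Nat.bodd m = false → σ.1 m = σ'.1 m) → (φ σ).1 n = (φ σ').1 n) ∧
      (∀ (σ : (closedTree T D hD).Strat) (x : T.Body), Cons false (φ σ) x →
        ∃ x' : (closedTree T D hD).Body, Cons false σ x' ∧
          ∀ n, cproj T D n (x'.1 n) = x.1 n) := by
  refine ⟨fun σ => ⟨fun n => GE T D n (σ.1 0) (σ.1 n), fun n p => GE_res D n _ _ (σ.2 n) p⟩,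
    ?_, ?_⟩
  · intro σ σ' n hn h
    show GE T D n (σ.1 0) (σ.1 n) = GE T D n (σ'.1 0) (σ'.1 n)
    rw [h 0 (Nat.zero_le n) rfl, h n le_rfl hn]
  · intro σ x hx
    have hx0 : x.1 1 = (σ.1 0 (x.1 0) : CLevel T D 1).1.1 := hx 0 rfl
    obtain ⟨S, hSdef⟩ : ∃ S, S = (σ.1 0 (x.1 0) : CLevel T D 1).1.2 := ⟨_, rfl⟩
    have hQ : QE (x.1 1) S := by
      rw [hx0, hSdef]; exact (σ.1 0 (x.1 0) : CLevel T D 1).2
    have hanc : ∀ k, ((σ.1 0 (anc0 (T := T) ⟨k + 2, x.1 (k + 2)⟩) : CLevel T D 1)).1.2 = S := by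
      intro k
      rw [anc0_body, hSdef]
    have hstep : ∀ k, Nat.bodd k = false →
        x.1 (k + 2 + 1) = GE T D (k + 2) (σ.1 0) (σ.1 (k + 2)) (x.1 (k + 2)) := by
      intro k hk
      exact hx (k + 2) (by simp [hk])
    have hlev1 : (σ.1 0 (x.1 0) : CLevel T D 1) = ⟨(x.1 1, S), hQ⟩ := by
      apply Subtype.ext
      exact Prod.ext hx0.symm hSdef.symm
    -- data of the answer of `σ`
    have hdata : ∀ (k : ℕ) (y : CLevel T D (k + 2)),
        (σ.1 (k + 2) y : CLevel T D (k + 3)).1.2 = y.1.2 := by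
      intro k y
      exact congrArg (fun z : CLevel T D (k + 2) => z.1.2) (σ.2 (k + 2) y)
    by_cases hA : ∃ m, (⟨m, x.1 m⟩ : T.Pos) ∈ UE D S
    · obtain ⟨m, hm⟩ := hA
      obtain ⟨k0, _, hk0, _, hfirst⟩ := First.body hm
      have ho : ∀ n, OptOK D S ⟨n + 2, x.1 (n + 2)⟩ (.inl ⟨k0, x.1 k0⟩) := by
        intro n
        refine ⟨hk0.1, hk0.2.1, hk0.2.2.1, hk0.2.2.2, ?_⟩
        rcases le_total (n + 2) k0 with h | h
        · exact Or.inl (Ext.body x h)
        · exact Or.inr (Ext.body x h)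
      refine ⟨cbody x S (.inl ⟨k0, x.1 k0⟩) hQ ho, ?_, cbody_proj x S _ hQ ho⟩
      intro n hn
      match n with
      | 0 => exact hlev1.symm
      | 1 => simp at hn
      | k + 2 =>
        have hk : Nat.bodd k = false := by simpa using hn
        have hval : Valid D k (x.1 (k + 2), S, .inl ⟨k0, x.1 k0⟩) :=
          ⟨⟨x.1 1, Ext.body x (by omega), hQ⟩, ho k⟩
        have hz := hdata k ⟨(x.1 (k + 2), S, .inl ⟨k0, x.1 k0⟩), hval⟩
        have hx3 : x.1 (k + 2 + 1) = (σ.1 (k + 2)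
            (⟨(x.1 (k + 2), S, .inl ⟨k0, x.1 k0⟩), hval⟩ : CLevel T D (k + 2)) :
              CLevel T D (k + 3)).1.1 := by
          rcases Nat.lt_or_ge (k + 2) k0 with hlt | hge
          · -- forced by the validity
            have hv := (σ.1 (k + 2)
              (⟨(x.1 (k + 2), S, .inl ⟨k0, x.1 k0⟩), hval⟩ : CLevel T D (k + 2)) :
              CLevel T D (k + 3)).2.2
            rw [hz] at hv
            rcases hv.2.2.2.2 with h | h
            · exact Ext.of_body h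
            · have h' := h.eq_of_level (by simp only; omega)
              have : k0 = k + 2 + 1 := congrArg Sigma.fst h'
              subst this
              exact eq_of_heq (Sigma.mk.inj h').2
          · rw [hstep k hk]
            exact GE_rule1 (hanc k) (hfirst (k + 2) hge) hval
        apply Subtype.ext
        exact Prod.ext hx3 hz.symm
    · push Not at hA
      have hnoU : ∀ k v, ¬ First (UE D S) v ⟨k + 2, x.1 (k + 2)⟩ := by
        intro k v hv
        have h1 := Ext.of_body' hv.2.1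
        apply hA v.1
        rw [h1]; exact hv.1
      have hnoF : ∀ m, (⟨m, x.1 m⟩ : T.Pos) ∉ FE D S := by
        intro m hm
        obtain ⟨k0, _, hk0, _, hfirst⟩ := First.body hm
        obtain ⟨j, _, hj'⟩ := sE_spec hQ hk0 x rfl (by
          intro n hn hne _
          obtain ⟨k, rfl⟩ : ∃ k, n = k + 2 := ⟨n - 2, by have := hk0.2.1; simp only at this hn; omega⟩
          have hk : Nat.bodd k = false := by simpa using hne
          rw [hstep k hk]
          exact GE_rule2 (hanc k) (hnoU k) (hfirst (k + 2) hn))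
        exact hA j hj'
      have hnoF' : ∀ k a, ¬ First (FE D S) a ⟨k + 2, x.1 (k + 2)⟩ := by
        intro k v hv
        have h1 := Ext.of_body' hv.2.1
        apply hnoF v.1
        rw [h1]; exact hv.1
      have hmemSE : ∀ k, (⟨k + 2, x.1 (k + 2)⟩ : T.Pos) ∈ S →
          (⟨k + 2, x.1 (k + 2)⟩ : T.Pos) ∈ SE D S := by
        intro k hk
        refine ⟨hk, by simp, fun a ha haF => ?_⟩
        apply hnoF a.1
        rw [Ext.of_body' ha]; exact haF
      have hQO : QO D S (SE D S) := QO_SE hD hQ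
      have hrule3 : ∀ k, Nat.bodd k = false → ∀ (hk : (⟨k + 2, x.1 (k + 2)⟩ : T.Pos) ∈ S),
          x.1 (k + 2 + 1) = (σ.1 (k + 2)
            (⟨(x.1 (k + 2), S, .inr (SE D S)),
              ⟨⟨x.1 1, Ext.body x (by omega), hQ⟩, hQO, hmemSE k hk⟩⟩ : CLevel T D (k + 2)) :
              CLevel T D (k + 3)).1.1 := by
        intro k hk hmem
        rw [hstep k hk]
        exact GE_rule3 (hanc k) (hnoU k) (hnoF' k) _
      have hmemS : ∀ k, (⟨k + 1, x.1 (k + 1)⟩ : T.Pos) ∈ S := by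
        intro k
        induction k with
        | zero => exact hQ.mem
        | succ k ih =>
          by_cases hk : Nat.bodd (k + 1) = true
          · apply hQ.theirs (k + 1) _ hk
            rw [x.2]; exact ih
          · obtain ⟨j, rfl⟩ : ∃ j, k = j + 1 := by
              cases k with
              | zero => simp at hk
              | succ j => exact ⟨j, rfl⟩
            have hj : Nat.bodd j = false := by simpa using hk
            have hr := hrule3 j hj ih
            have hval : Valid D j (x.1 (j + 2), S, .inr (SE D S)) :=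
              ⟨⟨x.1 1, Ext.body x (by omega), hQ⟩, hQO, hmemSE j ih⟩
            have hz := hdata j ⟨(x.1 (j + 2), S, .inr (SE D S)), hval⟩
            have hv := (σ.1 (j + 2)
              (⟨(x.1 (j + 2), S, .inr (SE D S)), hval⟩ : CLevel T D (j + 2)) :
              CLevel T D (j + 3)).2.2
            rw [hz] at hv
            have hv2 := hv.2
            rw [← hr] at hv2
            exact hv2.1
      have ho : ∀ n, OptOK D S ⟨n + 2, x.1 (n + 2)⟩ (.inr (SE D S)) :=
        fun n => ⟨hQO, hmemSE n (hmemS (n + 1))⟩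
      refine ⟨cbody x S (.inr (SE D S)) hQ ho, ?_, cbody_proj x S _ hQ ho⟩
      intro n hn
      match n with
      | 0 => exact hlev1.symm
      | 1 => simp at hn
      | k + 2 =>
        have hk : Nat.bodd k = false := by simpa using hn
        have hval : Valid D k (x.1 (k + 2), S, .inr (SE D S)) :=
          ⟨⟨x.1 1, Ext.body x (by omega), hQ⟩, ho k⟩
        have hz := hdata k ⟨(x.1 (k + 2), S, .inr (SE D S)), hval⟩
        apply Subtype.ext
        exact Prod.ext (hrule3 k hk (hmemS (k + 1))) hz.symm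

end Pool.Agent.BorelDet
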