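import Pool.Agent.Lib.BorelDet.Basic

/-!
# Borel determinacy, part 2: positions and the extension relation
-/

namespace Pool.Agent.BorelDet

universe u

namespace GTree

/-- All positions of a tree. -/
abbrev Pos (T : GTree.{u}) : Type u := Σ n, T.P n

/-- `Ext a b`: the position `b` extends the position `a` (or is equal to it). -/
inductive Ext (T : GTree.{u}) : T.Pos → T.Pos → Prop
  | refl (a : T.Pos) : Ext T a a
  | step {a : T.Pos} {n : ℕ} (q : T.P (n + 1)) : Ext T a ⟨n, T.res n q⟩ → Ext T a ⟨n + 1, q⟩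

end GTree

open GTree

variable {T : GTree.{u}}

namespace GTree.Ext

theorem single {n : ℕ} (q : T.P (n + 1)) : T.Ext ⟨n, T.res n q⟩ ⟨n + 1, q⟩ :=
  .step q (.refl _)

theorem single' {n : ℕ} {q : T.P (n + 1)} {p : T.P n} (h : T.res n q = p) :
    T.Ext ⟨n, p⟩ ⟨n + 1, q⟩ := by
  subst h; exact single q

theorem trans {a b c : T.Pos} (hab : T.Ext a b) (hbc : T.Ext b c) : T.Ext a c := by
  induction hbc with
  | refl => exact hab
  | step q _ ih => exact .step q ih

theorem level_le {a b : T.Pos} (h : T.Ext a b) : a.1 ≤ b.1 := by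
  induction h with
  | refl => exact le_rfl
  | step q _ ih => exact ih.trans (Nat.le_succ _)

/-- An extension of the same level is equal. -/
theorem eq_of_level {a b : T.Pos} (h : T.Ext a b) (hl : b.1 ≤ a.1) : a = b := by
  cases h with
  | refl => rfl
  | step q h' =>
    exfalso
    have := h'.level_le
    simp only at this hl
    omega

/-- The last step of a proper extension. -/
theorem of_succ {a : T.Pos} {n : ℕ} {q : T.P (n + 1)} (h : T.Ext a ⟨n + 1, q⟩) (hl : a.1 ≤ n) :
    T.Ext a ⟨n, T.res n q⟩ := by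
  cases h with
  | refl => exact absurd hl (by simp)
  | step q h' => exact h'

/-- Two ancestors of one position are comparable. -/
theorem total {a b c : T.Pos} (ha : T.Ext a c) (hb : T.Ext b c) : T.Ext a b ∨ T.Ext b a := by
  induction ha with
  | refl => exact Or.inr hb
  | step q h' ih =>
    cases hb with
    | refl => exact Or.inl (.step q h')
    | step q h'' => exact ih h''

/-- Two ancestors of one position with `level a ≤ level b`. -/
theorem of_le {a b c : T.Pos} (ha : T.Ext a c) (hb : T.Ext b c) (hl : a.1 ≤ b.1) :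
    T.Ext a b := by
  rcases total ha hb with h | h
  · exact h
  · rw [h.eq_of_level hl]; exact .refl _

theorem antisymm {a b : T.Pos} (h : T.Ext a b) (h' : T.Ext b a) : a = b :=
  h.eq_of_level h'.level_le

/-- Two ancestors at the same level are equal. -/
theorem unique {n : ℕ} {p q : T.P n} {c : T.Pos} (hp : T.Ext ⟨n, p⟩ c) (hq : T.Ext ⟨n, q⟩ c) :
    p = q := by
  have := (of_le hp hq le_rfl).eq_of_level le_rfl
  exact eq_of_heq (Sigma.mk.inj this).2

/-- Every position has an ancestor at every lower level. -/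
theorem exists_ancestor (c : T.Pos) (m : ℕ) (hm : m ≤ c.1) : ∃ p : T.P m, T.Ext ⟨m, p⟩ c := by
  obtain ⟨n, q⟩ := c
  simp only at hm
  induction n with
  | zero =>
    obtain rfl : m = 0 := by omega
    exact ⟨q, .refl _⟩
  | succ n ih =>
    rcases Nat.lt_or_ge n m with h | h
    · obtain rfl : m = n + 1 := by omega
      exact ⟨q, .refl _⟩
    · obtain ⟨p, hp⟩ := ih (T.res n q) h
      exact ⟨p, .step q hp⟩

/-- The positions of a branch. -/
theorem body (x : T.Body) {m n : ℕ} (h : m ≤ n) : T.Ext ⟨m, x.1 m⟩ ⟨n, x.1 n⟩ := by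
  induction n, h using Nat.le_induction with
  | base => exact .refl _
  | succ n _ ih =>
    apply Ext.step
    rw [x.2]; exact ih

/-- An ancestor of a position of a branch lies on the branch. -/
theorem of_body {x : T.Body} {a : T.Pos} {n : ℕ} (h : T.Ext a ⟨n, x.1 n⟩) : x.1 a.1 = a.2 := by
  obtain ⟨m, p⟩ := a
  exact unique (body x h.level_le) h

theorem of_body' {x : T.Body} {a : T.Pos} {n : ℕ} (h : T.Ext a ⟨n, x.1 n⟩) :
    (⟨a.1, x.1 a.1⟩ : T.Pos) = a := by
  obtain ⟨m, p⟩ := a
  have := of_body h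
  simp only at this
  simp [this]

/-- A position on a branch below the level of `n` is an ancestor. -/
theorem body_of_mem {x : T.Body} {a : T.Pos} (h : x.1 a.1 = a.2) {n : ℕ} (hn : a.1 ≤ n) :
    T.Ext a ⟨n, x.1 n⟩ := by
  obtain ⟨m, p⟩ := a
  simp only at h hn
  subst h
  exact body x hn

end GTree.Ext

/-- `u` is the first ancestor of `r` in `U`. -/
def First (U : Set T.Pos) (u r : T.Pos) : Prop :=
  u ∈ U ∧ T.Ext u r ∧ ∀ v ∈ U, T.Ext v r → T.Ext u v

theorem First.unique {U : Set T.Pos} {u u' r : T.Pos} (h : First U u r) (h' : First U u' r) :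
    u = u' :=
  (h.2.2 u' h'.1 h'.2.1).antisymm (h'.2.2 u h.1 h.2.1)

theorem First.exists {U : Set T.Pos} {v r : T.Pos} (hv : v ∈ U) (h : T.Ext v r) :
    ∃ u, First U u r := by
  classical
  have hex : ∃ n, ∃ w ∈ U, T.Ext w r ∧ w.1 = n := ⟨v.1, v, hv, h, rfl⟩
  obtain ⟨w, hw, hwr, hl⟩ := Nat.find_spec hex
  refine ⟨w, hw, hwr, fun z hz hzr => ?_⟩
  apply hwr.of_le hzr
  rw [hl]
  exact Nat.find_min' hex ⟨z, hz, hzr, rfl⟩

/-- The first ancestor stays the same for all extensions. -/
theorem First.ext {U : Set T.Pos} {u r r' : T.Pos} (h : First U u r) (hr : T.Ext r r') :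
    First U u r' := by
  refine ⟨h.1, h.2.1.trans hr, fun v hv hvr => ?_⟩
  rcases (h.2.1.trans hr).total hvr with h' | h'
  · exact h'
  · exact h.2.2 v hv (h'.trans h.2.1)

/-- If a branch meets `U` then it has a first point in `U`. -/
theorem First.body {U : Set T.Pos} {x : T.Body} {m : ℕ} (h : (⟨m, x.1 m⟩ : T.Pos) ∈ U) :
    ∃ k, k ≤ m ∧ (⟨k, x.1 k⟩ : T.Pos) ∈ U ∧ (∀ j, j < k → (⟨j, x.1 j⟩ : T.Pos) ∉ U) ∧
      ∀ n, k ≤ n → First U ⟨k, x.1 k⟩ ⟨n, x.1 n⟩ := by
  classical
  have hex : ∃ k, (⟨k, x.1 k⟩ : T.Pos) ∈ U := ⟨m, h⟩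
  refine ⟨Nat.find hex, Nat.find_min' hex h, Nat.find_spec hex, fun j hj => Nat.find_min hex hj,
    fun n hn => ⟨Nat.find_spec hex, Ext.body x hn, fun v hv hvn => ?_⟩⟩
  apply (Ext.body x hn).of_le hvn
  have hv' := Ext.of_body' hvn
  apply Nat.find_min' hex
  rw [hv']
  exact hv

end Pool.Agent.BorelDet
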