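import Pool.Agent.Lib.BorelDet.ClosedZero

/-!
# Borel determinacy, part 8: shifting a tree by one level, closed sets with `Upto N`

`T.shift` has the levels `P (n + 1)`.  From a covering of `T.shift` which is the identity up to
level `N` we get a covering of `T` which is the identity up to level `N + 1`.
-/

namespace Pool.Agent.BorelDet

universe u

open GTree

/-- The tree without its level zero. -/
def GTree.shift (T : GTree.{u}) : GTree.{u} where
  P := fun n => T.P (n + 1)
  res := fun n => T.res (n + 1)
  surj := fun n => T.surj (n + 1)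

/-- Branches of the shifted tree. -/
def shiftBody {T : GTree.{u}} (x : T.Body) : T.shift.Body :=
  ⟨fun n => x.1 (n + 1), fun n => x.2 (n + 1)⟩

/-- Branches of the shifted tree are branches of the tree. -/
private def shiftUnBody {T : GTree.{u}} (y : T.shift.Body) : T.Body :=
  ⟨fun n => match n with
    | 0 => T.res 0 (y.1 0)
    | n + 1 => y.1 n,
   fun n => by
    cases n with
    | zero => rfl
    | succ n => exact y.2 n⟩

private theorem shiftUnBody_shiftBody {T : GTree.{u}} (x : T.Body) :
    shiftUnBody (shiftBody x) = x := by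
  apply Subtype.ext
  funext n
  cases n with
  | zero => exact x.2 0
  | succ n => rfl

/-- The tree `T'` over `T.shift`, with the level zero of `T` below. -/
private def shiftGlue {T T' : GTree.{u}} (c : Cov T' T.shift)
    (h0 : Function.Surjective (c.π 0)) : GTree.{u} where
  P := fun n => match n with
    | 0 => T.P 0
    | n + 1 => T'.P n
  res := fun n => match n with
    | 0 => fun p => T.res 0 (c.π 0 p)
    | n + 1 => T'.res n
  surj := fun n => by
    cases n with
    | zero =>
      intro p
      obtain ⟨q, hq⟩ := T.surj 0 p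
      obtain ⟨r, hr⟩ := h0 q
      exact ⟨r, by show T.res 0 (c.π 0 r) = p; rw [hr, hq]⟩
    | succ n => exact T'.surj n

/-- The strategy on the levels above zero. -/
private def shiftStrat {T T' : GTree.{u}} (c : Cov T' T.shift)
    (h0 : Function.Surjective (c.π 0)) (σ : (shiftGlue c h0).Strat) : T'.Strat :=
  ⟨fun n => σ.1 (n + 1), fun n p => σ.2 (n + 1) p⟩

/-- The levels above zero of a branch. -/
private def shiftUp {T T' : GTree.{u}} (c : Cov T' T.shift)
    (h0 : Function.Surjective (c.π 0)) (x : (shiftGlue c h0).Body) : T'.Body :=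
  ⟨fun n => x.1 (n + 1), fun n => x.2 (n + 1)⟩

private theorem bodd_pred {e : Bool} {n : ℕ} (h : Nat.bodd (n + 1) = e) : Nat.bodd n = !e := by
  rw [Nat.bodd_succ] at h
  rw [← h, Bool.not_not]

private theorem bodd_succ' {e : Bool} {n : ℕ} (h : Nat.bodd n = !e) : Nat.bodd (n + 1) = e := by
  rw [Nat.bodd_succ, h, Bool.not_not]

/-- The covering of `T` by the glued tree. -/
private def shiftCov {T T' : GTree.{u}} (c : Cov T' T.shift)
    (h0 : Function.Bijective (c.π 0)) : Cov (shiftGlue c h0.2) T where
  π := fun n => match n with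
    | 0 => fun p => p
    | n + 1 => c.π n
  comm := fun n p => by
    cases n with
    | zero => rfl
    | succ n => exact c.comm n p
  φ := fun e σ => ⟨fun n => match n with
      | 0 => fun p => c.π 0 (σ.1 0 p)
      | n + 1 => (c.φ (!e) (shiftStrat c h0.2 σ)).1 n,
    fun n p => by
      cases n with
      | zero => exact σ.2 0 p
      | succ n => exact (c.φ (!e) (shiftStrat c h0.2 σ)).2 n p⟩
  loc := fun e σ σ' n hn h => by
    cases n with
    | zero =>
      have := h 0 le_rfl hn
      funext p
      show c.π 0 (σ.1 0 p) = c.π 0 (σ'.1 0 p)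
      rw [this]
    | succ n =>
      exact c.loc (!e) _ _ n (bodd_pred hn)
        (fun m hm he => h (m + 1) (Nat.succ_le_succ hm) (bodd_succ' he))
  lift := fun e σ x hx => by
    have hy : Cons (!e) (c.φ (!e) (shiftStrat c h0.2 σ)) (shiftBody x) :=
      fun n hn => hx (n + 1) (bodd_succ' hn)
    obtain ⟨y, hy1, hy2⟩ := c.lift (!e) _ _ hy
    refine ⟨⟨fun n => match n with
      | 0 => x.1 0
      | n + 1 => y.1 n, fun n => ?_⟩, fun n hn => ?_, fun n => ?_⟩
    · cases n with
      | zero =>
        show T.res 0 (c.π 0 (y.1 0)) = x.1 0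
        rw [hy2 0]
        exact x.2 0
      | succ n => exact y.2 n
    · cases n with
      | zero =>
        show y.1 0 = σ.1 0 (x.1 0)
        apply h0.1
        rw [hy2 0]
        exact hx 0 hn
      | succ n => exact hy1 n (bodd_pred hn)
    · cases n with
      | zero => rfl
      | succ n => exact hy2 n

theorem unshift {T : GTree.{u}} {T' : GTree.{u}} (c : Cov T' T.shift) {N : ℕ} (hc : c.Upto N) :
    ∃ (T'' : GTree.{u}) (d : Cov T'' T), d.Upto (N + 1) ∧
      ∀ Y : Set T.shift.Body, LevelDet (c.map ⁻¹' Y) →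
        LevelDet (d.map ⁻¹' (shiftBody ⁻¹' Y)) := by
  have h0 : Function.Bijective (c.π 0) := hc.bij 0 (Nat.zero_le N)
  refine ⟨shiftGlue c h0.2, shiftCov c h0, ⟨fun n hn => ?_, fun e σ n hn he p => ?_⟩,
    fun Y hY => ?_⟩
  · cases n with
    | zero => exact Function.bijective_id
    | succ n => exact hc.bij n (Nat.le_of_succ_le_succ hn)
  · cases n with
    | zero => rfl
    | succ n =>
      exact hc.compat (!e) (shiftStrat c h0.2 σ) n (Nat.lt_of_succ_lt_succ hn) (bodd_pred he) p
  · obtain ⟨n, hn⟩ := hY
    refine ⟨n + 1, fun x y hxy hx => ?_⟩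
    exact hn (shiftUp c h0.2 x) (shiftUp c h0.2 y) hxy hx

/-- Every closed set is unravelled by coverings which are the identity up to any level. -/
theorem closed_unravel (N : ℕ) (T : GTree.{u}) (X : Set T.Body) (hX : IsOpenB Xᶜ) :
    ∃ (T' : GTree.{u}) (c : Cov T' T), c.Upto N ∧ LevelDet (c.map ⁻¹' X) := by
  induction N generalizing T with
  | zero => exact closed_zero T X hX
  | succ N ih =>
    have hY : IsOpenB (shiftUnBody (T := T) ⁻¹' X)ᶜ := by
      intro y hy
      obtain ⟨n, hn⟩ := hX (shiftUnBody y) hy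
      refine ⟨n, fun z hz => hn (shiftUnBody z) ?_⟩
      have h1 : (shiftUnBody z).1 (n + 1) = (shiftUnBody y).1 (n + 1) := hz
      rw [← (shiftUnBody z).2 n, ← (shiftUnBody y).2 n, h1]
    obtain ⟨T', c, hc, hl⟩ := ih T.shift _ hY
    obtain ⟨T'', d, hd, hdl⟩ := unshift c hc
    refine ⟨T'', d, hd, ?_⟩
    have h2 := hdl _ hl
    have h3 : (shiftBody (T := T)) ⁻¹' (shiftUnBody (T := T) ⁻¹' X) = X := by
      ext x
      show shiftUnBody (shiftBody x) ∈ X ↔ x ∈ X
      rw [shiftUnBody_shiftBody]
    rw [h3] at h2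
    exact h2

end Pool.Agent.BorelDet
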