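import Pool.Agent.Lib.BorelDet.Shift
import Pool.Agent.Lib.BorelDet.Limit

/-!
# Borel determinacy, part 10: all sets of the generated sigma-algebra are unravelled
-/

namespace Pool.Agent.BorelDet

universe u

open GTree

/-- The sigma-algebra generated by the sets determined at one level. -/
@[reducible] def borelB (T : GTree.{u}) : MeasurableSpace T.Body :=
  MeasurableSpace.generateFrom {X | LevelDet X}

/-- Hereditarily unravelled: unravelled over every covering, up to any level. -/
def HUnr {T : GTree.{u}} (X : Set T.Body) : Prop :=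
  ∀ (T' : GTree.{u}) (c : Cov T' T) (N : ℕ),
    ∃ (T'' : GTree.{u}) (d : Cov T'' T'), d.Upto N ∧ LevelDet ((d.comp c).map ⁻¹' X)

theorem HUnr.of_levelDet {T : GTree.{u}} {X : Set T.Body} (h : LevelDet X) : HUnr X := by
  intro T' c N
  refine ⟨T', Cov.refl T', Cov.refl_upto T' N, ?_⟩
  exact h.preimage ((Cov.refl T').comp c).map (fun n p => c.π n p) (fun _ _ => rfl)

theorem HUnr.compl {T : GTree.{u}} {X : Set T.Body} (h : HUnr X) : HUnr Xᶜ := by
  intro T' c N
  obtain ⟨T'', d, hd, hl⟩ := h T' c N
  refine ⟨T'', d, hd, ?_⟩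
  rw [Set.preimage_compl]
  exact hl.compl

/-- The sequence of coverings which unravels the sets of a sequence one after the other. -/
private noncomputable def unravelSeq {T : GTree.{u}} {X : ℕ → Set T.Body} (h : ∀ i, HUnr (X i))
    (T' : GTree.{u}) (c : Cov T' T) (N : ℕ) : ℕ → (Σ S : GTree.{u}, Cov S T')
  | 0 => ⟨T', Cov.refl T'⟩
  | i + 1 =>
    ⟨Classical.choose (h i (unravelSeq h T' c N i).1 ((unravelSeq h T' c N i).2.comp c) (N + i)),
      (Classical.choose (Classical.choose_spec
        (h i (unravelSeq h T' c N i).1 ((unravelSeq h T' c N i).2.comp c) (N + i)))).comp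
        (unravelSeq h T' c N i).2⟩

private noncomputable def unravelCov {T : GTree.{u}} {X : ℕ → Set T.Body} (h : ∀ i, HUnr (X i))
    (T' : GTree.{u}) (c : Cov T' T) (N : ℕ) (i : ℕ) :
    Cov (unravelSeq h T' c N (i + 1)).1 (unravelSeq h T' c N i).1 :=
  Classical.choose (Classical.choose_spec
    (h i (unravelSeq h T' c N i).1 ((unravelSeq h T' c N i).2.comp c) (N + i)))

private theorem unravelCov_spec {T : GTree.{u}} {X : ℕ → Set T.Body} (h : ∀ i, HUnr (X i))
    (T' : GTree.{u}) (c : Cov T' T) (N : ℕ) (i : ℕ) :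
    (unravelCov h T' c N i).Upto (N + i) ∧
      LevelDet (((unravelCov h T' c N i).comp
        ((unravelSeq h T' c N i).2.comp c)).map ⁻¹' (X i)) :=
  Classical.choose_spec (Classical.choose_spec
    (h i (unravelSeq h T' c N i).1 ((unravelSeq h T' c N i).2.comp c) (N + i)))

private theorem unravelSeq_succ {T : GTree.{u}} {X : ℕ → Set T.Body} (h : ∀ i, HUnr (X i))
    (T' : GTree.{u}) (c : Cov T' T) (N : ℕ) (i : ℕ) (x : (unravelSeq h T' c N (i + 1)).1.Body) :
    (unravelSeq h T' c N (i + 1)).2.map x =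
      (unravelSeq h T' c N i).2.map ((unravelCov h T' c N i).map x) := rfl

theorem HUnr.iUnion {T : GTree.{u}} {X : ℕ → Set T.Body} (h : ∀ i, HUnr (X i)) :
    HUnr (⋃ i, X i) := by
  intro T' c N
  obtain ⟨L, d, r, hd, hr0, hres, hrc⟩ := exists_limit
    (fun i => (unravelSeq h T' c N i).1) (fun i => unravelCov h T' c N i) N
    (fun i => (unravelCov_spec h T' c N i).1)
  -- the projections of branches
  let ρ : ∀ i, L.Body → (unravelSeq h T' c N i).1.Body := fun i y =>
    ⟨fun n => r i n (y.1 n), fun n => by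
      have := hres i n (y.1 (n + 1))
      rw [y.2 n] at this
      exact this⟩
  have hρ : ∀ i y, (unravelSeq h T' c N i).2.map (ρ i y) = (d.map y : T'.Body) := by
    intro i y
    induction i with
    | zero =>
      apply Subtype.ext
      funext n
      exact hr0 n (y.1 n)
    | succ i ih =>
      rw [unravelSeq_succ, ← ih]
      congr 1
      apply Subtype.ext
      funext n
      exact hrc i n (y.1 n)
  let d' : Cov L T' := d
  have hlev : ∀ i, LevelDet ((d'.comp c).map ⁻¹' (X i)) := by
    intro i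
    have h1 := (unravelCov_spec h T' c N i).2
    have h2 := h1.preimage (L := L) (ρ (i + 1)) (r (i + 1)) (fun _ _ => rfl)
    have h3 : (d'.comp c).map ⁻¹' (X i) =
        ρ (i + 1) ⁻¹' (((unravelCov h T' c N i).comp
          ((unravelSeq h T' c N i).2.comp c)).map ⁻¹' (X i)) := by
      ext y
      show c.map (d'.map y) ∈ X i ↔
        c.map ((unravelSeq h T' c N i).2.map ((unravelCov h T' c N i).map (ρ (i + 1) y))) ∈ X i
      rw [← unravelSeq_succ, hρ]
      exact Iff.rfl
    rw [h3]
    exact h2
  have hopen : IsOpenB ((d'.comp c).map ⁻¹' (⋃ i, X i)) := by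
    rw [Set.preimage_iUnion]
    exact IsOpenB.iUnion fun i => (hlev i).isOpenB
  obtain ⟨T'', e, he, hel⟩ := closed_unravel N L ((d'.comp c).map ⁻¹' (⋃ i, X i))ᶜ
    (by rw [compl_compl]; exact hopen)
  refine ⟨T'', e.comp d', he.comp hd, ?_⟩
  have := hel.compl
  rw [← Set.preimage_compl, compl_compl] at this
  exact this

theorem hUnr_of_measurable {T : GTree.{u}} {X : Set T.Body} (h : @MeasurableSet T.Body (borelB T) X) :
    HUnr X := by
  refine MeasurableSpace.generateFrom_induction {X | LevelDet X} (fun Y _ => HUnr Y)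
    (fun Y hY _ => HUnr.of_levelDet hY) ?_ (fun Y _ hY => hY.compl)
    (fun Y _ hY => HUnr.iUnion hY) X h
  exact HUnr.of_levelDet ⟨0, fun x y _ hx => hx.elim⟩

end Pool.Agent.BorelDet
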